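import Pool.Agent.P.MP_33127d_an.Sw.Blocks

namespace Pool.Agent.P.MP_33127d_an.SL

open MeasureTheory Finset Filter
open scoped ComplexConjugate

variable {d : ℕ}

/-- the class of test polynomials -/
def Wom (d : ℕ) (ω : ℕ → ℝ) : Set (TT d → ℂ) :=
  {f | ∃ (S : Finset (Fin d → ℕ)) (α : (Fin d → ℕ) → ℝ), (∀ s, 0 ≤ α s) ∧
    (∀ l, ∑ s ∈ S with wt s + 2 * d = l, α s ≤ ω l) ∧ f = testf S α}

theorem testf_mem {S : Finset (Fin d → ℕ)} {α : (Fin d → ℕ) → ℝ} {ω : ℕ → ℝ}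
    (hα : ∀ s, 0 ≤ α s) (h : ∀ l, ∑ s ∈ S with wt s + 2 * d = l, α s ≤ ω l) :
    testf S α ∈ Wom d ω := ⟨S, α, hα, h, rfl⟩

theorem sigmaClass_mono_exp {m : ℕ} {p q : ℝ} (hpq : p ≤ q) (ω : ℕ → ℝ) :
    sigmaClass m p (Wom d ω) ≤ sigmaClass m q (Wom d ω) := by
  refine iSup₂_mono fun f hf => iInf_mono fun K => iInf_mono fun _ => iInf_mono fun c => ?_
  obtain ⟨S, α, -, -, rfl⟩ := hf
  exact eLpNorm_le_eLpNorm_of_exponent_le (ENNReal.ofReal_le_ofReal hpq)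
    ((continuous_testf S α).aestronglyMeasurable.sub (continuous_tp K c).aestronglyMeasurable)

noncomputable def sg (n : ℕ) (p a γ : ℝ) (m : ℕ) : ENNReal :=
  sigmaClass m p (Wom (n + 1) (om a γ))

theorem lower_small {p : ℝ} (hp : 1 < p) (hp2 : p ≤ 2) : ∃ c : ℝ, 0 < c ∧
    ∀ (ω : ℕ → ℝ) (m : ℕ) (S : Finset (Fin d → ℕ)) (α γ : (Fin d → ℕ) → ℝ) (κ Y : ℝ),
    (∀ s, 0 ≤ α s) → (∀ s, 0 ≤ γ s) → 0 ≤ κ → (∀ s ∈ S, α s * γ s = κ) →
    (∀ l, ∑ s ∈ S with wt s + 2 * d = l, α s ≤ ω l) →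
    (2 ^ (d + 1) * m : ℝ) ≤ ∑ s ∈ S, 2 ^ wt s → 0 < Y →
    ∑ s ∈ S, (γ s * 2 ^ (p⁻¹ * wt s)) ^ (1 - p⁻¹)⁻¹ ≤ Y →
    ENNReal.ofReal (c * (κ * (∑ s ∈ S, 2 ^ wt s) / Y ^ (1 - p⁻¹))) ≤
      sigmaClass m p (Wom d ω) := by
  have hpr := Real.HolderConjugate.conjExponent hp
  set r := p.conjExponent
  have hri : 1 - p⁻¹ = r⁻¹ := hpr.one_sub_inv
  have hri' : 1 - r⁻¹ = p⁻¹ := hpr.symm.one_sub_inv
  have hr0 : 0 < r := hpr.symm.pos
  have hr2 : 2 ≤ r := by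
    have h1 : 2⁻¹ ≤ p⁻¹ := inv_anti₀ (by linarith) hp2
    have h2 : r⁻¹ ≤ 2⁻¹ := by linarith
    exact (inv_le_inv₀ hr0 (by norm_num)).mp h2
  obtain ⟨C, hC, h⟩ := testg_large (d := d) hr2
  refine ⟨(2 ^ (d + 1) * C)⁻¹, by positivity,
    fun ω m S α γ κ Y hα hγ hκ hαγ hω hm hY hS => ?_⟩
  rw [hri, inv_inv] at hS
  rw [hri]
  refine le_sigmaClass (by linarith) (testf_mem hα hω) (by fun_prop) fun K c hK => ?_
  have h1 := lower_core hpr S hα hγ K c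
  have h2 : Np r (testg S γ K) ≤ C * Y ^ r⁻¹ := by
    refine (h S γ K hγ).trans (mul_le_mul_of_nonneg_left ?_ hC.le)
    rw [hri']
    exact Real.rpow_le_rpow (Finset.sum_nonneg fun s _ => by have := hγ s; positivity) hS
      (by positivity)
  have h3 : κ * (∑ s ∈ S, 2 ^ wt s) / 2 ^ (d + 1) ≤
      ∑ s ∈ S, α s * γ s * (2 ^ wt s / 2 ^ d - (supp s ∩ K).card) := by
    have e0 : ∑ s ∈ S, α s * γ s * (2 ^ wt s / 2 ^ d - (supp s ∩ K).card) =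
        ∑ s ∈ S, κ * (2 ^ wt s / 2 ^ d - (supp s ∩ K).card) :=
      Finset.sum_congr rfl fun s hs => by rw [hαγ s hs]
    rw [e0, ← Finset.mul_sum, mul_div_assoc, Finset.sum_sub_distrib, ← Finset.sum_div]
    refine mul_le_mul_of_nonneg_left ?_ hκ
    have h4 := sum_card_inter S K
    have h5 : (K.card : ℝ) ≤ m := by exact_mod_cast hK
    have h6 : (m : ℝ) ≤ (∑ s ∈ S, 2 ^ wt s) / 2 ^ (d + 1) := by
      rw [le_div_iff₀ (by positivity)]; linarith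
    have h7 : (∑ s ∈ S, 2 ^ wt s : ℝ) / 2 ^ d = 2 * ((∑ s ∈ S, 2 ^ wt s) / 2 ^ (d + 1)) := by
      field_simp; ring
    linarith
  have h8 := h3.trans (h1.trans (mul_le_mul_of_nonneg_left h2 (Np_nonneg _ _)))
  rw [div_le_iff₀ (by positivity)] at h8
  rw [inv_mul_le_iff₀ (by positivity), div_le_iff₀ (by positivity)]
  linarith

theorem lower_large {p : ℝ} (hp : 2 ≤ p) (ω : ℕ → ℝ) (m : ℕ) (S : Finset (Fin d → ℕ))
    (α : (Fin d → ℕ) → ℝ) (Y : ℝ) (hα : ∀ s, 0 ≤ α s)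
    (hω : ∀ l, ∑ s ∈ S with wt s + 2 * d = l, α s ≤ ω l)
    (hm : ∀ s ∈ S, (2 ^ (d + 1) * m : ℝ) ≤ 2 ^ wt s) (hY : 0 < Y)
    (hS : ∑ s ∈ S, (2 : ℝ) ^ (p⁻¹ * wt s) + √m ≤ Y) :
    ENNReal.ofReal ((2 ^ (d + 1))⁻¹ * ((∑ s ∈ S, α s * 2 ^ wt s) / Y)) ≤
      sigmaClass m p (Wom d ω) := by
  have hpr := Real.HolderConjugate.conjExponent (show 1 < p by linarith)
  set r := p.conjExponent
  have hri' : 1 - r⁻¹ = p⁻¹ := hpr.symm.one_sub_inv
  have hr0 : 0 < r := hpr.symm.pos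
  have hr2 : r ≤ 2 := by
    have h1 : p⁻¹ ≤ 2⁻¹ := inv_anti₀ (by linarith) hp
    have h2 : 2⁻¹ ≤ r⁻¹ := by linarith
    exact (inv_le_inv₀ (by norm_num) hr0).mp h2
  refine le_sigmaClass (by linarith) (testf_mem hα hω) (by fun_prop) fun K c hK => ?_
  have h5 : (K.card : ℝ) ≤ m := by exact_mod_cast hK
  have h1 := lower_core hpr S (γ := fun _ => 1) hα (fun _ => zero_le_one) K c
  have h2 : Np r (testg S (fun _ => 1) K) ≤ Y := by
    refine (testg_small hpr.symm.lt.le hr2 S K).trans (le_trans ?_ hS)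
    rw [hri']
    gcongr
  have h3 : (∑ s ∈ S, α s * 2 ^ wt s) / 2 ^ (d + 1) ≤
      ∑ s ∈ S, α s * 1 * (2 ^ wt s / 2 ^ d - (supp s ∩ K).card) := by
    rw [Finset.sum_div]
    refine Finset.sum_le_sum fun s hs => ?_
    rw [mul_one, mul_div_assoc]
    refine mul_le_mul_of_nonneg_left ?_ (hα s)
    have h4 : ((supp s ∩ K).card : ℝ) ≤ K.card := by
      exact_mod_cast Finset.card_le_card Finset.inter_subset_right
    have h6 : (m : ℝ) ≤ 2 ^ wt s / 2 ^ (d + 1) := by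
      rw [le_div_iff₀ (by positivity)]; linarith [hm s hs]
    have h7 : (2 ^ wt s : ℝ) / 2 ^ d = 2 * (2 ^ wt s / 2 ^ (d + 1)) := by
      field_simp; ring
    linarith
  have h8 := h3.trans (h1.trans (mul_le_mul_of_nonneg_left h2 (Np_nonneg _ _)))
  rw [div_le_iff₀ (by positivity)] at h8
  rw [inv_mul_le_iff₀ (by positivity), div_le_iff₀ hY]
  linarith

theorem lower_small2 (n : ℕ) {p : ℝ} (a γ : ℝ) (hp : 1 < p) (hp2 : p ≤ 2) : ∃ c : ℝ, 0 < c ∧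
    ∀ (m : ℕ) (Λ : Finset ℕ) (v : ℕ → ℕ) (α g : ℕ → ℝ) (κ Y : ℝ),
    (∀ w ∈ Λ, v w ≤ (Finset.Nat.antidiagonalTuple (n + 1) w).card) →
    (∀ w, 0 ≤ α w) → (∀ w, 0 ≤ g w) → 0 ≤ κ → (∀ w ∈ Λ, α w * g w = κ) →
    (∀ w ∈ Λ, v w * α w ≤ om a γ (w + 2 * (n + 1))) →
    (2 ^ (n + 2) * m : ℝ) ≤ ∑ w ∈ Λ, (v w : ℝ) * 2 ^ w → 0 < Y →
    ∑ w ∈ Λ, v w * (g w * 2 ^ (p⁻¹ * w)) ^ (1 - p⁻¹)⁻¹ ≤ Y →
    ENNReal.ofReal (c * (κ * (∑ w ∈ Λ, (v w : ℝ) * 2 ^ w) / Y ^ (1 - p⁻¹))) ≤ sg n p a γ m := by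
  obtain ⟨c, hc, h⟩ := lower_small (d := n + 1) hp hp2
  refine ⟨c, hc, fun m Λ v α g κ Y hv hα hg hκ hαg hω hm hY hS => ?_⟩
  obtain ⟨S, h1, h2⟩ := exists_shapes (n + 1) Λ v hv
  rw [← h2 fun w => 2 ^ w] at hm ⊢
  rw [← h2 fun w => (g w * 2 ^ (p⁻¹ * w)) ^ (1 - p⁻¹)⁻¹] at hS
  exact h _ m S (fun s => α (wt s)) (fun s => g (wt s)) κ Y (fun s => hα _) (fun s => hg _) hκ
    (fun s hs => hαg _ (h1 s hs)) (levels h2 (fun l => (om_pos a γ l).le) hω) hm hY hS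

theorem lower_large2 (n : ℕ) {p : ℝ} (a γ : ℝ) (hp : 2 ≤ p) (m : ℕ) (Λ : Finset ℕ) (Y : ℝ)
    (hm : ∀ w ∈ Λ, (2 ^ (n + 2) * m : ℝ) ≤ 2 ^ w) (hY : 0 < Y)
    (hS : ∑ w ∈ Λ, (2 : ℝ) ^ (p⁻¹ * w) + √m ≤ Y) :
    ENNReal.ofReal ((2 ^ (n + 2))⁻¹ * ((∑ w ∈ Λ, om a γ (w + 2 * (n + 1)) * 2 ^ w) / Y)) ≤
      sg n p a γ m := by
  obtain ⟨S, h1, h2⟩ := exists_shapes (n + 1) Λ (fun _ => 1) fun w _ => one_le_card n w
  have h3 := lower_large hp (om a γ) m S (fun s => om a γ (wt s + 2 * (n + 1))) Y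
    (fun s => (om_pos _ _ _).le) (levels (α := fun w => om a γ (w + 2 * (n + 1))) h2
      (fun l => (om_pos a γ l).le) fun w _ => by simp)
    (fun s hs => hm _ (h1 s hs)) hY (by rw [h2 fun w => (2 : ℝ) ^ (p⁻¹ * w)]; simpa using hS)
  rw [h2 fun w => om a γ (w + 2 * (n + 1)) * 2 ^ w] at h3
  simp only [Nat.cast_one, one_mul] at h3
  exact h3

theorem lower_single (n : ℕ) {p : ℝ} (a γ : ℝ) (hp : 1 < p) (hp2 : p ≤ 2) : ∃ c : ℝ, 0 < c ∧
    ∀ (L w v : ℕ), 1 ≤ L → 1 ≤ v → v ≤ (Finset.Nat.antidiagonalTuple (n + 1) w).card →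
    w + 2 * (n + 1) ≤ 2 * L → L ≤ 2 * w → 2 ^ (n + 2) * 2 ^ L ≤ v * 2 ^ w →
    ENNReal.ofReal (c * (2 ^ (-(a - (1 - p⁻¹)) * w) * (L : ℝ) ^ γ * (v : ℝ) ^ (-(1 - p⁻¹)))) ≤
      sg n p a γ (2 ^ L) := by
  obtain ⟨c, hc, h⟩ := lower_small2 n a γ hp hp2
  have hβ0 := beta_pos hp
  set β := 1 - p⁻¹ with hβ
  refine ⟨c * ((2 ^ |γ|)⁻¹ * 2 ^ (-a * (2 * (n + 1) : ℕ))), by positivity,
    fun L w v hL hv1 hv h1 h2 h3 => ?_⟩
  have hv0 : (0 : ℝ) < v := by exact_mod_cast hv1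
  have ho := om_pos a γ (w + 2 * (n + 1))
  refine le_trans (ENNReal.ofReal_le_ofReal ?_) (h (2 ^ L) {w} (fun _ => v)
    (fun _ => om a γ (w + 2 * (n + 1)) / v) (fun _ => 1) (om a γ (w + 2 * (n + 1)) / v)
    (v * (2 ^ (p⁻¹ * w)) ^ β⁻¹) (by simpa using hv) (fun _ => by positivity) (fun _ => zero_le_one)
    (by positivity) (by simp) (by simp [mul_div_cancel₀ _ hv0.ne'])
    (by simp only [Finset.sum_singleton]; exact_mod_cast h3) (by positivity) (by simp))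
  have h4 := om_ge a γ (K := 2) (w := w) (c := 2 * (n + 1)) hL two_pos (by exact_mod_cast h1)
    (by exact_mod_cast h2)
  rw [mul_assoc c]
  refine mul_le_mul_of_nonneg_left ?_ hc.le
  rw [Finset.sum_singleton, Real.mul_rpow hv0.le (by positivity),
    Real.rpow_inv_rpow (by positivity) hβ0.ne', Real.rpow_neg hv0.le]
  have e1 : (2 : ℝ) ^ (-(a - β) * w) = 2 ^ (-a * w) * (2 ^ w / 2 ^ (p⁻¹ * w)) := by
    rw [← Real.rpow_natCast, ← Real.rpow_sub (by norm_num), ← Real.rpow_add (by norm_num)]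
    congr 1; rw [hβ]; ring
  rw [e1]
  calc _ = ((2 ^ |γ|)⁻¹ * 2 ^ (-a * (2 * (n + 1) : ℕ)) * (2 ^ (-a * w) * (L : ℝ) ^ γ)) *
        (2 ^ w / 2 ^ (p⁻¹ * w) * ((v : ℝ) ^ β)⁻¹) := by ring
    _ ≤ om a γ (w + 2 * (n + 1)) * (2 ^ w / 2 ^ (p⁻¹ * w) * ((v : ℝ) ^ β)⁻¹) := by gcongr
    _ = _ := by field_simp

theorem LB1 {n : ℕ} (hn : 1 ≤ n) {p a : ℝ} (γ : ℝ) (hp : 1 < p) (hp2 : p ≤ 2)
    (ha : 1 - p⁻¹ < a) :
    LB (sg n p a γ) (-a + (1 - p⁻¹)) (γ + n * (a - 2 * (1 - p⁻¹))) 0 := by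
  obtain ⟨c, hc, h⟩ := lower_single n a γ hp hp2
  have hβ0 := beta_pos hp
  set β := 1 - p⁻¹ with hβ
  set c1 := 3 * n + 4 + (2 * n) ^ n with hc1
  refine ⟨c * (2 ^ (-(a - β) * c1) * (2 ^ n) ^ (-β)), by positivity, ?_⟩
  filter_upwards [exists_N n, eventually_ge_atTop (c1 + 2 * (n + 1))]
    with L ⟨N, hN1, hN2, hN3, hN4, _⟩ hL
  set v := (Finset.Nat.antidiagonalTuple (n + 1) (N + c1)).card with hv
  have v1 : L ^ n ≤ (2 * n) ^ n * v := by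
    refine le_trans ?_ (Nat.mul_le_mul_left _ (le_card_antidiag n (N + c1)))
    rw [← mul_pow]
    refine Nat.pow_le_pow_left ?_ _
    have := Nat.lt_mul_div_succ (N + c1) (show 0 < n by omega)
    nlinarith
  have v2 : v ≤ 2 ^ n * L ^ n := by
    refine (card_antidiag_le n (N + c1)).trans ?_
    rw [← mul_pow]
    exact Nat.pow_le_pow_left (by omega) _
  have v3 : 2 ^ (n + 2) * 2 ^ L ≤ v * 2 ^ (N + c1) := by
    have : (2 * n) ^ n ≤ 2 ^ (2 * n) ^ n := Nat.lt_two_pow_self.le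
    calc _ ≤ 2 ^ (n + 2) * (2 ^ (2 * n + 2) * (2 ^ N * (2 ^ (2 * n) ^ n * v))) := by
          refine Nat.mul_le_mul_left _ (hN4.trans ?_)
          gcongr
          exact v1.trans (Nat.mul_le_mul_right _ this)
      _ = _ := by rw [hc1]; ring
  refine le_trans (ENNReal.ofReal_le_ofReal ?_) (h L (N + c1) v (by omega) (one_le_card _ _)
    le_rfl (by omega) (by omega) v3)
  have hL1 : (1 : ℝ) ≤ L := by have : 1 ≤ L := by omega
                               exact_mod_cast this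
  have hL0 : (0 : ℝ) < L := by linarith
  have hv0 : (0 : ℝ) < v := by exact_mod_cast one_le_card n (N + c1)
  have a1 : (2 ^ n) ^ (-β) * (L : ℝ) ^ (-(n * β)) ≤ (v : ℝ) ^ (-β) := by
    have : (v : ℝ) ≤ 2 ^ n * L ^ n := by exact_mod_cast v2
    refine le_trans (le_of_eq ?_) (Real.rpow_le_rpow_of_nonpos hv0 this (by linarith))
    rw [Real.mul_rpow (by positivity) (by positivity), ← Real.rpow_natCast L n,
      ← Real.rpow_mul hL0.le]
    congr 2; ring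
  have a2 : (2 : ℝ) ^ ((-a + β) * L) * (L : ℝ) ^ (n * (a - β)) ≤ 2 ^ (-(a - β) * N) := by
    have h1 : 2 ^ N * L ^ n ≤ 2 ^ L := le_trans (Nat.le_mul_of_pos_left _ (by positivity)) hN3
    have h2 : (2 : ℝ) ^ N * L ^ n ≤ 2 ^ L := by exact_mod_cast h1
    have h3 := Real.rpow_le_rpow (by positivity) h2 (sub_pos.mpr ha).le
    rw [Real.mul_rpow (by positivity) (by positivity), ← Real.rpow_natCast 2 L,
      ← Real.rpow_natCast 2 N, ← Real.rpow_natCast L n, ← Real.rpow_mul (by norm_num),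
      ← Real.rpow_mul hL0.le, ← Real.rpow_mul (by norm_num)] at h3
    have e1 : (-a + β) * L = -(L * (a - β)) := by ring
    have e2 : -(a - β) * N = -(N * (a - β)) := by ring
    rw [e1, e2, Real.rpow_neg (by norm_num), Real.rpow_neg (by norm_num),
      inv_mul_le_iff₀ (by positivity), le_mul_inv_iff₀ (by positivity)]
    linarith
  have a3 : (2 : ℝ) ^ (-(a - β) * (N + c1 : ℕ)) = 2 ^ (-(a - β) * N) * 2 ^ (-(a - β) * c1) := by
    rw [← Real.rpow_add (by norm_num)]; congr 1; push_cast; ring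
  have a4 : (L : ℝ) ^ (γ + n * (a - 2 * β)) =
      (L : ℝ) ^ γ * (L : ℝ) ^ (n * (a - β)) * (L : ℝ) ^ (-(n * β)) := by
    rw [← Real.rpow_add hL0, ← Real.rpow_add hL0]; congr 1; ring
  rw [psi, Real.rpow_zero, mul_one, a3, a4, mul_assoc c]
  refine mul_le_mul_of_nonneg_left ?_ hc.le
  calc _ = ((2 : ℝ) ^ ((-a + β) * L) * (L : ℝ) ^ (n * (a - β))) * 2 ^ (-(a - β) * c1) *
        (L : ℝ) ^ γ * ((2 ^ n) ^ (-β) * (L : ℝ) ^ (-(n * β))) := by ring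
    _ ≤ _ := by gcongr

theorem LB2 (n : ℕ) {p a : ℝ} (γ : ℝ) (hp : 1 < p) (hp2 : p ≤ 2) :
    LB (sg n p a γ) (-a + (1 - p⁻¹)) γ 0 := by
  obtain ⟨c, hc, h⟩ := lower_single n a γ hp hp2
  set β := 1 - p⁻¹ with hβ
  refine ⟨c * 2 ^ (-(a - β) * (n + 2)), by positivity, ?_⟩
  filter_upwards [eventually_ge_atTop (3 * n + 4)] with L hL
  refine le_trans (ENNReal.ofReal_le_ofReal (le_of_eq ?_)) (h L (L + (n + 2)) 1 (by omega) le_rfl
    (one_le_card _ _) (by omega) (by omega) (le_of_eq (by ring)))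
  have a3 : (2 : ℝ) ^ (-(a - β) * (L + (n + 2) : ℕ)) =
      2 ^ ((-a + β) * L) * 2 ^ (-(a - β) * (n + 2)) := by
    rw [← Real.rpow_add (by norm_num)]; congr 1; push_cast; ring
  rw [psi, a3]
  simp only [Real.rpow_zero, Nat.cast_one, Real.one_rpow]
  ring

theorem LB3 {n : ℕ} (hn : 1 ≤ n) {p : ℝ} (γ : ℝ) (hp : 1 < p) (hp2 : p ≤ 2) :
    LB (sg n p (2 * (1 - p⁻¹)) γ) (-(1 - p⁻¹)) γ 1 := by
  obtain ⟨c, hc, h⟩ := lower_small2 n (2 * (1 - p⁻¹)) γ hp hp2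
  have hβ0 := beta_pos hp
  set β := 1 - p⁻¹ with hβ
  set c0 : ℝ := (2 ^ |γ|)⁻¹ * 2 ^ (-(2 * β) * (2 * (n + 1) : ℕ)) with hc0
  have hc00 : 0 < c0 := by positivity
  refine ⟨c * (c0 * 2⁻¹ * 2 ^ (-β * (n + 3))), by positivity, ?_⟩
  filter_upwards [ev_log (2 * (8 * n + 1)), eventually_ge_atTop (8 * n + 4)] with L hlog hL
  set J := Nat.log 2 (L / (8 * n)) with hJ
  have hq : 0 < L / (8 * n) := Nat.div_pos (by omega) (by omega)
  have j1 : 2 ^ J ≤ L / (8 * n) := Nat.pow_log_le_self 2 hq.ne'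
  have j2 : L / (8 * n) < 2 ^ (J + 1) := Nat.lt_pow_succ_log_self (by norm_num) _
  have hL0 : (0 : ℝ) < L := by have : 0 < L := by omega
                               exact_mod_cast this
  have j3 : 2⁻¹ * Real.log L ≤ J := by
    have h1 : L ≤ 8 * n * 2 ^ (J + 1) :=
      (Nat.lt_mul_div_succ L (show 0 < 8 * n by omega)).le.trans (Nat.mul_le_mul_left _ j2)
    have h2 : (L : ℝ) ≤ 8 * n * 2 ^ (J + 1) := by exact_mod_cast h1
    have hn0 : (0 : ℝ) < 8 * n := by positivity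
    have h3 := Real.log_le_log hL0 h2
    rw [Real.log_mul hn0.ne' (by positivity), Real.log_pow] at h3
    have h4 := Real.log_le_self hn0.le
    have h5 := Real.log_two_lt_d9
    push_cast at h3
    have : (0 : ℝ) ≤ J := by positivity
    nlinarith
  have hJ0 : 0 < J := by
    have : (0 : ℝ) < J := by have : (0 : ℝ) ≤ n := by positivity
                             linarith
    exact_mod_cast this
  have j4 : 8 * J ≤ L := by
    have h1 : J ≤ L / (8 * n) := Nat.lt_two_pow_self.le.trans j1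
    have h2 := Nat.mul_div_le L (8 * n)
    nlinarith
  set j := Nat.log 2 J with hj
  have k1 : 2 ^ j ≤ J := Nat.pow_log_le_self 2 hJ0.ne'
  have k2 : J < 2 ^ (j + 1) := Nat.lt_pow_succ_log_self (by norm_num) _
  have k3 : j ≤ J := Nat.lt_two_pow_self.le.trans k1
  obtain ⟨W1, hW⟩ : ∃ W1, W1 + J + j = L + (n + 2) := ⟨L + (n + 2) - J - j, by omega⟩
  have hsum : ∑ w ∈ Ioc W1 (W1 + J), ((2 ^ (W1 + J - w) : ℕ) : ℝ) * 2 ^ w =
      J * 2 ^ (W1 + J) := by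
    rw [Finset.sum_congr rfl (g := fun _ => (2 : ℝ) ^ (W1 + J)) fun w hw => by
      push_cast
      rw [← pow_add, Nat.sub_add_cancel (Finset.mem_Ioc.mp hw).2]]
    simp
  have s1 : (2 : ℝ) ^ (n + 2) * (2 ^ L : ℕ) ≤ J * 2 ^ (W1 + J) := by
    have : 2 ^ (n + 2) * 2 ^ L ≤ J * 2 ^ (W1 + J) := by
      rw [← pow_add, show n + 2 + L = j + (W1 + J) by omega, pow_add]
      gcongr
    exact_mod_cast this
  have s2 : (J : ℝ) * 2 ^ (W1 + J) ≤ 2 ^ (L + (n + 3)) := by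
    have : J * 2 ^ (W1 + J) ≤ 2 ^ (L + (n + 3)) := by
      rw [show L + (n + 3) = (j + 1) + (W1 + J) by omega, pow_add 2 (j + 1)]
      gcongr
    exact_mod_cast this
  refine le_trans (ENNReal.ofReal_le_ofReal ?_) (h (2 ^ L) (Ioc W1 (W1 + J))
    (fun w => 2 ^ (W1 + J - w))
    (fun w => c0 * (2 ^ (-(2 * β) * w) * (L : ℝ) ^ γ) / (2 ^ (W1 + J - w) : ℕ))
    (fun w => 2 ^ ((2 * β - 1) * w)) (c0 * (L : ℝ) ^ γ / 2 ^ (W1 + J)) (2 ^ (L + (n + 3)))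
    (fun w hw => ?_) (fun w => by positivity) (fun w => by positivity) (by positivity)
    (fun w hw => ?_) (fun w hw => ?_) (by rw [hsum]; exact s1) (by positivity) ?_)
  · rw [hsum, psi, Real.rpow_one, mul_assoc c]
    refine mul_le_mul_of_nonneg_left ?_ hc.le
    have a1 : ((2 : ℝ) ^ (L + (n + 3))) ^ β = (2 ^ (-β * L) * 2 ^ (-β * (n + 3)))⁻¹ := by
      rw [← Real.rpow_natCast, ← Real.rpow_mul (by norm_num), ← Real.rpow_add (by norm_num),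
        ← Real.rpow_neg (by norm_num)]
      congr 1; push_cast; ring
    rw [a1]
    calc _ = c0 * (L : ℝ) ^ γ * (2 ^ (-β * L) * 2 ^ (-β * (n + 3))) * (2⁻¹ * Real.log L) := by ring
      _ ≤ c0 * (L : ℝ) ^ γ * (2 ^ (-β * L) * 2 ^ (-β * (n + 3))) * J := by gcongr
      _ = _ := by field_simp
  · rw [Finset.mem_Ioc] at hw
    refine le_trans ?_ (le_card_antidiag n w)
    refine le_trans ?_ (Nat.le_self_pow (by omega) _)
    have h1 : 2 ^ (W1 + J - w) ≤ 2 ^ J := Nat.pow_le_pow_right (by norm_num) (by omega)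
    have h2 : L / (8 * n) ≤ w / n := by
      rw [← Nat.div_div_eq_div_mul]
      exact Nat.div_le_div_right (by omega)
    omega
  · rw [Finset.mem_Ioc] at hw
    have a1 : (2 : ℝ) ^ (W1 + J) = (2 ^ (W1 + J - w) : ℕ) * 2 ^ w := by
      push_cast
      rw [← pow_add, Nat.sub_add_cancel hw.2]
    have a2 : (2 : ℝ) ^ ((2 * β - 1) * w) = (2 ^ (-(2 * β) * w) * 2 ^ w)⁻¹ := by
      rw [← Real.rpow_natCast, ← Real.rpow_add (by norm_num), ← Real.rpow_neg (by norm_num)]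
      congr 1; ring
    rw [a1, a2]
    field_simp
  · rw [Finset.mem_Ioc] at hw
    rw [mul_div_cancel₀ _ (by positivity)]
    refine om_ge (2 * β) γ (K := 2) (by omega) two_pos ?_ ?_
    · have : w + 2 * (n + 1) ≤ 2 * L := by omega
      exact_mod_cast this
    · have : L ≤ 2 * w := by omega
      exact_mod_cast this
  · refine le_trans (le_of_eq ?_) (hsum.le.trans s2)
    refine Finset.sum_congr rfl fun w _ => ?_
    rw [← Real.rpow_add (by norm_num), ← Real.rpow_mul (by norm_num), ← Real.rpow_natCast 2 w]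
    congr 2
    have : p⁻¹ = 1 - β := by rw [hβ]; ring
    rw [this]; field_simp; ring

theorem LB5 (n : ℕ) {p a : ℝ} (γ : ℝ) (hp : 2 ≤ p) (ha : 1 - p⁻¹ < a) :
    LB (sg n p a γ) (-(a - (1 - p⁻¹)) * p / 2) γ 0 := by
  set β := 1 - p⁻¹ with hβ
  have hp0 : 0 < p := by linarith
  refine ⟨(2 ^ (n + 2))⁻¹ * ((p ^ |γ|)⁻¹ * 2 ^ (-a * (2 * (n + 1) : ℕ)) * 2⁻¹ *
    2 ^ (-(a - β) * (n + 3))), by positivity, ?_⟩
  filter_upwards [eventually_ge_atTop (3 * n + 5)] with L hL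
  have hL1 : (3 * n + 5 : ℝ) ≤ L := by exact_mod_cast hL
  have hn0 : (0 : ℝ) ≤ n := by positivity
  set L' := ⌈p * L / 2⌉₊ with hL'
  have c1 : p * L / 2 ≤ L' := Nat.le_ceil _
  have c2 : (L' : ℝ) ≤ p * L / 2 + 1 := (Nat.ceil_lt_add_one (by positivity)).le
  have c3 : (L : ℝ) ≤ L' := by nlinarith
  have c4 : L ≤ L' := by exact_mod_cast c3
  refine le_trans (ENNReal.ofReal_le_ofReal ?_) (lower_large2 n a γ hp (2 ^ L) {L' + (n + 2)}
    (2 * 2 ^ (p⁻¹ * (L' + (n + 2) : ℕ))) ?_ (by positivity) ?_)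
  · have h4 := om_ge a γ (K := p) (w := L' + (n + 2)) (c := 2 * (n + 1)) (L := L) (by omega) hp0
      (by push_cast; nlinarith) (by push_cast; nlinarith)
    have a1 : (2 : ℝ) ^ (-(a - β) * (n + 3)) * 2 ^ (-(a - β) * p / 2 * L) ≤
        2 ^ (-a * (L' + (n + 2) : ℕ)) * (2 ^ (L' + (n + 2)) / 2 ^ (p⁻¹ * (L' + (n + 2) : ℕ))) := by
      rw [← Real.rpow_natCast, ← Real.rpow_sub (by norm_num), ← Real.rpow_add (by norm_num),
        ← Real.rpow_add (by norm_num)]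
      refine Real.rpow_le_rpow_of_exponent_le (by norm_num) ?_
      have : p⁻¹ = 1 - β := by rw [hβ]; ring
      rw [this]; push_cast
      nlinarith [mul_le_mul_of_nonneg_left c2 (sub_pos.mpr ha).le]
    rw [Finset.sum_singleton, psi, Real.rpow_zero, mul_one, mul_assoc]
    refine mul_le_mul_of_nonneg_left ?_ (by positivity)
    calc _ = (p ^ |γ|)⁻¹ * 2 ^ (-a * (2 * (n + 1) : ℕ)) * 2⁻¹ * (L : ℝ) ^ γ *
          ((2 : ℝ) ^ (-(a - β) * (n + 3)) * 2 ^ (-(a - β) * p / 2 * L)) := by ring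
      _ ≤ (p ^ |γ|)⁻¹ * 2 ^ (-a * (2 * (n + 1) : ℕ)) * 2⁻¹ * (L : ℝ) ^ γ *
          (2 ^ (-a * (L' + (n + 2) : ℕ)) *
            (2 ^ (L' + (n + 2)) / 2 ^ (p⁻¹ * (L' + (n + 2) : ℕ)))) := by gcongr
      _ = ((p ^ |γ|)⁻¹ * 2 ^ (-a * (2 * (n + 1) : ℕ)) *
          (2 ^ (-a * (L' + (n + 2) : ℕ)) * (L : ℝ) ^ γ)) * 2 ^ (L' + (n + 2)) /
          (2 * 2 ^ (p⁻¹ * (L' + (n + 2) : ℕ))) := by field_simp
      _ ≤ _ := by gcongr
  · intro w hw
    rw [Finset.mem_singleton.mp hw]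
    push_cast
    rw [← pow_add]
    exact pow_le_pow_right₀ (by norm_num) (by omega)
  · rw [Finset.sum_singleton, two_mul (2 ^ _), sqrt_two_pow]
    refine add_le_add le_rfl (Real.rpow_le_rpow_of_exponent_le (by norm_num) ?_)
    rw [le_inv_mul_iff₀ hp0]
    push_cast
    linarith

theorem LB6 (n : ℕ) {p : ℝ} (γ : ℝ) (hp : 2 < p) : LB (sg n p 1 γ) (-(1 / 2)) (γ + 1) 0 := by
  have hp0 : 0 < p := by linarith
  obtain ⟨C1, hC1, h1⟩ := geo_up (δ := p⁻¹) (by positivity)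
  set c0 : ℝ := (p ^ |γ|)⁻¹ * 2 ^ (-(1 : ℝ) * (2 * (n + 1) : ℕ)) with hc0
  have hc00 : 0 < c0 := by positivity
  have hq : 0 < (p - 2) / 4 := by linarith
  refine ⟨(2 ^ (n + 2))⁻¹ * (c0 * ((p - 2) / 4) / (C1 + 1)), by positivity, ?_⟩
  filter_upwards [eventually_ge_atTop (2 * n + 2), ev_nat ((n + 3) / ((p - 2) / 4))] with L hL hL2
  rw [div_le_iff₀ hq] at hL2
  have hL1 : (2 * n + 2 : ℝ) ≤ L := by exact_mod_cast hL
  have hn0 : (0 : ℝ) ≤ n := by positivity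
  have hL0 : (0 : ℝ) < L := by linarith
  set L' := ⌊p * L / 2⌋₊ with hL'
  have c1 : (L' : ℝ) ≤ p * L / 2 := Nat.floor_le (by positivity)
  have c2 : p * L / 2 < L' + 1 := Nat.lt_floor_add_one _
  have c3 : L + (n + 2) ≤ L' := by
    have : ((L + (n + 2) : ℕ) : ℝ) ≤ L' := by push_cast; linarith
    exact_mod_cast this
  refine le_trans (ENNReal.ofReal_le_ofReal ?_) (lower_large2 n 1 γ hp.le (2 ^ L)
    (Icc (L + (n + 2)) L') ((C1 + 1) * 2 ^ ((1 / 2 : ℝ) * L)) ?_ (by positivity) ?_)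
  · have h4 : ∀ w ∈ Icc (L + (n + 2)) L', c0 * (L : ℝ) ^ γ ≤ om 1 γ (w + 2 * (n + 1)) * 2 ^ w := by
      intro w hw
      rw [Finset.mem_Icc] at hw
      have w1 : (w : ℝ) ≤ L' := by exact_mod_cast hw.2
      have w2 : (L : ℝ) ≤ w := by have : L ≤ w := by omega
                                  exact_mod_cast this
      have h5 := om_ge 1 γ (K := p) (w := w) (c := 2 * (n + 1)) (L := L) (by omega) hp0
        (by push_cast; nlinarith) (by nlinarith)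
      refine le_trans (le_of_eq ?_) (mul_le_mul_of_nonneg_right h5 (by positivity))
      rw [neg_one_mul (w : ℝ), Real.rpow_neg (by norm_num), Real.rpow_natCast, hc0]
      field_simp
    have h5 := Finset.card_nsmul_le_sum _ _ _ h4
    rw [Nat.card_Icc, nsmul_eq_mul, Nat.cast_sub (by omega)] at h5
    have h6 : (p - 2) / 4 * L ≤ ((L' + 1 : ℕ) : ℝ) - (L + (n + 2) : ℕ) := by
      push_cast; linarith
    have h7 := (mul_le_mul_of_nonneg_right h6 (by positivity)).trans h5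
    rw [psi, Real.rpow_zero, mul_one, mul_assoc, Real.rpow_add_one hL0.ne', neg_mul,
      Real.rpow_neg (by norm_num)]
    refine mul_le_mul_of_nonneg_left ?_ (by positivity)
    calc _ = (p - 2) / 4 * L * (c0 * (L : ℝ) ^ γ) / ((C1 + 1) * 2 ^ ((1 / 2 : ℝ) * L)) := by
          field_simp
      _ ≤ _ := by gcongr
  · intro w hw
    push_cast
    rw [← pow_add]
    exact pow_le_pow_right₀ (by norm_num) (by have := (Finset.mem_Icc.mp hw).1; omega)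
  · rw [sqrt_two_pow, add_mul, one_mul]
    refine add_le_add ?_ le_rfl
    have h2 := mul_le_mul_of_nonneg_right
      (h1 L' (Icc (L + (n + 2)) L') fun w hw => (Finset.mem_Icc.mp hw).2)
      (show (0 : ℝ) ≤ 2 ^ ((1 / 2 : ℝ) * L) by positivity)
    refine le_trans ?_ h2
    rw [Finset.sum_mul]
    refine Finset.sum_le_sum fun w _ => ?_
    rw [← Real.rpow_add (by norm_num)]
    refine Real.rpow_le_rpow_of_exponent_le (by norm_num) ?_
    have : p⁻¹ * L' ≤ 1 / 2 * L := by rw [inv_mul_le_iff₀ hp0]; linarith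
    linarith

theorem LB4 {n : ℕ} (hn : 1 ≤ n) {p a : ℝ} (γ : ℝ) (hp : 2 ≤ p) (ha : 1 < a) :
    LB (sg n p a γ) (-a + 1 / 2) (γ + n * (a - 1)) 0 := by
  obtain ⟨c, hc, h⟩ := LB1 hn (p := 2) (a := a) γ (by norm_num) le_rfl (by linarith)
  refine ⟨c, hc, ?_⟩
  filter_upwards [h] with L hL
  refine le_trans (le_of_eq ?_) (hL.trans (sigmaClass_mono_exp hp _))
  norm_num

end Pool.Agent.P.MP_33127d_an.SL
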