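import Pool.Agent.P.MP_33127d_an.Sw.Upper

namespace Pool.Agent.P.MP_33127d_an.SU

open MeasureTheory Finset Filter

theorem exists_N (n : ℕ) : ∀ᶠ L : ℕ in atTop, ∃ N : ℕ, N < L ∧ L ≤ 2 * N ∧
    2 ^ (3 * n + 4) * (2 ^ N * L ^ n) ≤ 2 ^ L ∧ 2 ^ L ≤ 2 ^ (4 * n + 4) * (2 ^ N * L ^ n) ∧
    ((L - N : ℕ) : ℝ) ≤ (7 * n + 4) * Real.log L := by
  filter_upwards [ev_log 1, ev_log_small (c := 2 * (7 * n + 4)) (by positivity),
    eventually_ge_atTop 2] with L h1 h2 h3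
  have c1 : L ≤ 2 ^ Nat.clog 2 L := Nat.le_pow_clog (by norm_num) L
  have c2 : 2 ^ Nat.clog 2 L ≤ 2 * L := by
    have h4 := Nat.pow_pred_clog_lt_self (b := 2) (by norm_num) (show 1 < L by omega)
    have h5 : 0 < Nat.clog 2 L := Nat.clog_pos (by norm_num) h3
    obtain ⟨j, hj⟩ : ∃ j, Nat.clog 2 L = j + 1 := ⟨_, (Nat.succ_pred_eq_of_pos h5).symm⟩
    rw [hj] at h4 ⊢
    simp only [Nat.pred_eq_sub_one, Nat.add_one_sub_one] at h4
    omega
  have c3 : (Nat.clog 2 L : ℝ) ≤ 4 * Real.log L := by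
    have h4 : ((2 : ℝ) ^ Nat.clog 2 L) ≤ 2 * L := by exact_mod_cast c2
    have hL : (0 : ℝ) < L := by positivity
    have h5 := Real.log_le_log (by positivity) h4
    rw [Real.log_pow, Real.log_mul (by norm_num) hL.ne'] at h5
    have h6 := Real.log_two_gt_d9
    have h7 := Real.log_two_lt_d9
    have : (0 : ℝ) ≤ Nat.clog 2 L := by positivity
    nlinarith
  set J := n * Nat.clog 2 L + 3 * n + 4 with hJ
  have c4 : (J : ℝ) ≤ (7 * n + 4) * Real.log L := by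
    rw [hJ]; push_cast
    have : (0 : ℝ) ≤ n := by positivity
    nlinarith
  have c5 : 2 * J ≤ L := by
    have : (2 * J : ℝ) ≤ L := by linarith
    exact_mod_cast this
  obtain ⟨N, hN⟩ : ∃ N, L = N + J := ⟨L - J, by omega⟩
  have e1 : 2 ^ L = 2 ^ (3 * n + 4) * (2 ^ N * (2 ^ Nat.clog 2 L) ^ n) := by
    conv_lhs => rw [hN, hJ]
    ring
  refine ⟨N, by omega, by omega, ?_, ?_, ?_⟩
  · rw [e1]; gcongr
  · rw [e1]
    calc _ ≤ 2 ^ (3 * n + 4) * (2 ^ N * (2 * L) ^ n) := by gcongr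
      _ = _ := by ring
  · rwa [show L - N = J by omega]

noncomputable def sg (n : ℕ) (p a γ : ℝ) (m : ℕ) : ENNReal :=
  sigmaClass m p (Eom (n + 1) (om a γ))

theorem budget {n N L : ℕ} (h1 : N < L) (h2 : 2 ^ (3 * n + 4) * (2 ^ N * L ^ n) ≤ 2 ^ L) :
    2 * (8 ^ (n + 1) * 2 ^ N * N ^ n) ≤ 2 ^ L := by
  refine le_trans ?_ h2
  calc _ ≤ 2 * (8 ^ (n + 1) * 2 ^ N * L ^ n) := by gcongr
    _ = _ := by rw [show (8 : ℕ) = 2 ^ 3 by norm_num, ← pow_mul]; ring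

theorem upper_small2 (n : ℕ) {p a : ℝ} (γ : ℝ) (hp : 1 < p) (hp2 : p ≤ 2) (ha : 1 - p⁻¹ < a) :
    ∃ C : ℝ, 0 < C ∧ ∀ L N : ℕ, N < L → L ≤ 2 * N → 2 ^ (3 * n + 4) * (2 ^ N * L ^ n) ≤ 2 ^ L →
    ∀ (w : ℕ → ℝ) (Wt Z : ℝ), (∀ l, 0 < w l) → 0 < Wt → ∑ l ∈ Ico N L, w l ≤ Wt → 0 ≤ Z →
    ∑ l ∈ Ico N L, ((2 : ℝ) ^ ((2 * (1 - p⁻¹) - a) * l) * w l ^ (-(1 - p⁻¹))) ^ p ≤ Z ^ p →
    sg n p a γ (2 ^ L) ≤ ENNReal.ofReal (C * ((L : ℝ) ^ γ *
      (Wt ^ (1 - p⁻¹) * 2 ^ (-(1 - p⁻¹) * L) * Z + 2 ^ (-(a - (1 - p⁻¹)) * L)))) := by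
  obtain ⟨K, hK, hE⟩ := Eom_Bom (d := n + 1) (q := (1 + p) / 2) (a := a) (by linarith)
    (by linarith) (lt_of_le_of_lt (sub_le_sub_left (inv_anti₀ (by linarith) (by linarith)) 1) ha) γ
  obtain ⟨C1, hC1, h1⟩ := upper_small' (n := n) hp hK
  obtain ⟨hs, C2, hC2, h2⟩ := om_tail ha γ
  set β := 1 - p⁻¹ with hβ
  have hp0 : 0 < p := by linarith
  set C3 : ℝ := 2 ^ |γ| * (2 * 8 ^ (n + 1)) ^ β with hC3
  have hC30 : 0 < C3 := by positivity
  refine ⟨C1 * (C2 + C3), by positivity, fun L N hNL hLN hb w Wt Z hw hWt hsum hZ hZs => ?_⟩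
  refine iSup₂_le fun f hf => ?_
  set η := (2 * 8 ^ (n + 1) * Wt)⁻¹ with hη
  have hη0 : 0 < η := by positivity
  refine (h1 _ f (om_pos a γ) (hE hf) hs (2 ^ L) N L (fun l => η * 2 ^ ((L : ℝ) - l) * w l)
    (by omega) hNL.le
    (fun l => by have := hw l; positivity) ?_).trans (ENNReal.ofReal_le_ofReal ?_)
  · have b1 : (2 * (8 ^ (n + 1) * 2 ^ N * N ^ n) : ℝ) ≤ 2 ^ L := by exact_mod_cast budget hNL hb
    have b2 : ∑ l ∈ Ico N L, (2 : ℝ) ^ l * (η * 2 ^ ((L : ℝ) - l) * w l) =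
        η * 2 ^ L * ∑ l ∈ Ico N L, w l := by
      rw [Finset.mul_sum]
      refine Finset.sum_congr rfl fun l _ => ?_
      rw [Real.rpow_sub (by norm_num), Real.rpow_natCast, Real.rpow_natCast]
      field_simp
    have b3 : 8 ^ (n + 1) * (η * 2 ^ L * ∑ l ∈ Ico N L, w l) ≤ 2 ^ L / 2 := by
      calc _ ≤ 8 ^ (n + 1) * (η * 2 ^ L * Wt) := by gcongr
        _ = _ := by rw [hη]; field_simp
    rw [b2]; push_cast; linarith
  have hL0 : (0 : ℝ) < L := by have : 0 < L := by omega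
                               exact_mod_cast this
  set Q : ℝ := C3 * (L : ℝ) ^ γ * (Wt ^ β * 2 ^ (-β * L)) with hQ
  have hQ0 : 0 ≤ Q := by positivity
  have e1 : ∑ l ∈ Ico N L, ((2 : ℝ) ^ (β * l) * om a γ l *
      (η * 2 ^ ((L : ℝ) - l) * w l) ^ (-β)) ^ p ≤ (Q * Z) ^ p := by
    rw [Real.mul_rpow hQ0 hZ]
    refine le_trans ?_ (mul_le_mul_of_nonneg_left hZs (by positivity))
    rw [Finset.mul_sum]
    refine Finset.sum_le_sum fun l hl => ?_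
    rw [Finset.mem_Ico] at hl
    have hwl := hw l
    have := om_pos a γ l
    rw [← Real.mul_rpow hQ0 (by positivity)]
    refine Real.rpow_le_rpow (by positivity) ?_ hp0.le
    have l1 : (1 : ℝ) ≤ l := by have : 1 ≤ l := by omega
                                exact_mod_cast this
    have l2 : (l : ℝ) ≤ L := by exact_mod_cast hl.2.le
    have l3 : (L : ℝ) ≤ 2 * l := by have : L ≤ 2 * l := by omega
                                    exact_mod_cast this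
    have l4 := lam_le (K := 2) l1 hL0 (by linarith) l3 γ
    have e2 : η ^ (-β) = (2 * 8 ^ (n + 1)) ^ β * Wt ^ β := by
      rw [hη, Real.inv_rpow (by positivity), Real.rpow_neg (by positivity), inv_inv,
        Real.mul_rpow (by positivity) hWt.le]
    have e3 : (2 : ℝ) ^ (β * l) * 2 ^ (-a * l) * (2 ^ ((L : ℝ) - l)) ^ (-β) =
        2 ^ (-β * L) * 2 ^ ((2 * β - a) * l) := by
      rw [← Real.rpow_mul (by norm_num), ← Real.rpow_add (by norm_num),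
        ← Real.rpow_add (by norm_num), ← Real.rpow_add (by norm_num)]
      congr 1; ring
    rw [om, Real.mul_rpow (by positivity) hwl.le, Real.mul_rpow hη0.le (by positivity), e2]
    calc _ = ((2 : ℝ) ^ (β * l) * 2 ^ (-a * l) * (2 ^ ((L : ℝ) - l)) ^ (-β)) * max (l : ℝ) 1 ^ γ *
          ((2 * 8 ^ (n + 1)) ^ β * Wt ^ β * w l ^ (-β)) := by ring
      _ ≤ (2 ^ (-β * L) * 2 ^ ((2 * β - a) * l)) * (2 ^ |γ| * (L : ℝ) ^ γ) *
          ((2 * 8 ^ (n + 1)) ^ β * Wt ^ β * w l ^ (-β)) := by rw [e3]; gcongr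
      _ = _ := by rw [hQ, hC3]; ring
  have e4 := Real.rpow_le_rpow (Finset.sum_nonneg fun l _ => by
    have := hw l; have := om_pos a γ l; positivity) e1 (inv_pos.mpr hp0).le
  rw [Real.rpow_rpow_inv (by positivity) hp0.ne'] at e4
  have e5 := h2 L (by omega)
  rw [mul_assoc]
  refine mul_le_mul_of_nonneg_left ((add_le_add e4 e5).trans ?_) hC1.le
  have n1 : 0 ≤ (L : ℝ) ^ γ * (Wt ^ β * 2 ^ (-β * L) * Z) := by positivity
  have n2 : 0 ≤ (L : ℝ) ^ γ * 2 ^ (-(a - β) * L) := by positivity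
  have := mul_nonneg hC2.le n1
  have := mul_nonneg hC30.le n2
  rw [hQ]
  nlinarith

theorem pow_N_le {n N L : ℕ} (hL : 0 < L) (h : 2 ^ L ≤ 2 ^ (4 * n + 4) * (2 ^ N * L ^ n)) {δ : ℝ}
    (hδ : 0 ≤ δ) :
    (2 : ℝ) ^ (-δ * N) ≤ (2 ^ (4 * n + 4)) ^ δ * (2 ^ (-δ * L) * (L : ℝ) ^ (n * δ)) := by
  have h1 : (2 : ℝ) ^ L ≤ 2 ^ (4 * n + 4) * (2 ^ N * L ^ n) := by exact_mod_cast h
  have hL0 : (0 : ℝ) < L := by exact_mod_cast hL
  have h2 := Real.rpow_le_rpow (by positivity) h1 hδ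
  rw [Real.mul_rpow (by positivity) (by positivity), Real.mul_rpow (by positivity) (by positivity),
    ← Real.rpow_natCast 2 L, ← Real.rpow_natCast 2 N, ← Real.rpow_natCast L n,
    ← Real.rpow_mul (by norm_num), ← Real.rpow_mul (by norm_num), ← Real.rpow_mul hL0.le] at h2
  rw [neg_mul, neg_mul, Real.rpow_neg (by norm_num), Real.rpow_neg (by norm_num), mul_comm δ,
    mul_comm δ]
  rw [inv_le_iff_one_le_mul₀ (by positivity)]
  rw [← div_le_one (by positivity)] at h2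
  rw [← one_le_inv₀ (by positivity)] at h2
  refine h2.trans (le_of_eq ?_)
  field_simp

theorem UB1 (n : ℕ) {p a : ℝ} (γ : ℝ) (hp : 1 < p) (hp2 : p ≤ 2) (ha : 2 * (1 - p⁻¹) < a) :
    UB (sg n p a γ) (-a + (1 - p⁻¹)) (γ + n * (a - 2 * (1 - p⁻¹))) 0 := by
  have hβ0 := beta_pos hp
  obtain ⟨C, hC, h⟩ := upper_small2 n γ hp hp2 (a := a) (by linarith)
  set β := 1 - p⁻¹ with hβ
  set δ := a - 2 * β with hδ
  have hδ0 : 0 < δ := by linarith
  have hp0 : 0 < p := by linarith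
  obtain ⟨C1, hC1, h1⟩ := geo_down (δ := δ / (2 * β)) (by positivity)
  obtain ⟨C2, hC2, h2⟩ := geo_down (δ := δ / 2 * p) (by positivity)
  refine ⟨C * (C1 ^ β * C2 ^ p⁻¹ * (2 ^ (4 * n + 4)) ^ δ + 1), by positivity, ?_⟩
  filter_upwards [exists_N n] with L ⟨N, hN1, hN2, hN3, hN4, _⟩
  refine (h L N hN1 hN2 hN3 (fun l => 2 ^ (-(δ / (2 * β)) * (l - N))) C1
    (C2 ^ p⁻¹ * 2 ^ (-δ * N)) (fun l => by positivity) hC1
    (h1 N _ fun l hl => (Finset.mem_Ico.mp hl).1) (by positivity) ?_).trans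
    (ENNReal.ofReal_le_ofReal ?_)
  · rw [Real.mul_rpow (by positivity) (by positivity), Real.rpow_inv_rpow hC2.le hp0.ne']
    refine le_trans (le_of_eq ?_) (mul_le_mul_of_nonneg_right
      (h2 N (Ico N L) fun l hl => (Finset.mem_Ico.mp hl).1) (by positivity))
    rw [Finset.sum_mul]
    refine Finset.sum_congr rfl fun l _ => ?_
    rw [← Real.rpow_mul (by norm_num), ← Real.rpow_add (by norm_num),
      ← Real.rpow_mul (by norm_num), ← Real.rpow_mul (by norm_num), ← Real.rpow_add (by norm_num)]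
    congr 1
    have : 2 * β - a = -δ := by linarith
    rw [this]; field_simp; ring
  · have hL1 : (1 : ℝ) ≤ L := by have : 1 ≤ L := by omega
                                 exact_mod_cast this
    have a1 := pow_N_le (by omega) hN4 hδ0.le
    have a2 : (1 : ℝ) ≤ (L : ℝ) ^ (n * δ) := Real.one_le_rpow hL1 (by positivity)
    have a3 : (2 : ℝ) ^ ((-a + β) * L) = 2 ^ (-β * L) * 2 ^ (-δ * L) := by
      rw [← Real.rpow_add (by norm_num)]; congr 1; rw [hδ]; ring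
    have a4 : (2 : ℝ) ^ (-(a - β) * L) = 2 ^ (-β * L) * 2 ^ (-δ * L) := by
      rw [← a3]; congr 1; ring
    rw [psi, Real.rpow_zero, mul_one, Real.rpow_add (by linarith), a3, a4, mul_assoc C]
    refine mul_le_mul_of_nonneg_left ?_ hC.le
    calc _ ≤ (L : ℝ) ^ γ * (C1 ^ β * 2 ^ (-β * L) * (C2 ^ p⁻¹ *
          ((2 ^ (4 * n + 4)) ^ δ * (2 ^ (-δ * L) * (L : ℝ) ^ (n * δ)))) +
          2 ^ (-β * L) * 2 ^ (-δ * L) * (L : ℝ) ^ (n * δ)) :=
          mul_le_mul_of_nonneg_left (add_le_add (by gcongr)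
            (le_mul_of_one_le_right (by positivity) a2)) (by positivity)
      _ = _ := by ring

theorem UB2 (n : ℕ) {p a : ℝ} (γ : ℝ) (hp : 1 < p) (hp2 : p ≤ 2) (ha : 1 - p⁻¹ < a)
    (ha2 : a < 2 * (1 - p⁻¹)) : UB (sg n p a γ) (-a + (1 - p⁻¹)) γ 0 := by
  have hβ0 := beta_pos hp
  obtain ⟨C, hC, h⟩ := upper_small2 n γ hp hp2 ha
  set β := 1 - p⁻¹ with hβ
  set δ := 2 * β - a with hδ
  have hδ0 : 0 < δ := by linarith
  have hp0 : 0 < p := by linarith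
  obtain ⟨C1, hC1, h1⟩ := geo_up (δ := δ / (2 * β)) (by positivity)
  obtain ⟨C2, hC2, h2⟩ := geo_up (δ := δ / 2 * p) (by positivity)
  refine ⟨C * (C1 ^ β * C2 ^ p⁻¹ + 1), by positivity, ?_⟩
  filter_upwards [exists_N n] with L ⟨N, hN1, hN2, hN3, hN4, _⟩
  refine (h L N hN1 hN2 hN3 (fun l => 2 ^ (-(δ / (2 * β)) * (L - l))) C1
    (C2 ^ p⁻¹ * 2 ^ (δ * L)) (fun l => by positivity) hC1
    (h1 L _ fun l hl => (Finset.mem_Ico.mp hl).2.le) (by positivity) ?_).trans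
    (ENNReal.ofReal_le_ofReal (le_of_eq ?_))
  · rw [Real.mul_rpow (by positivity) (by positivity), Real.rpow_inv_rpow hC2.le hp0.ne']
    refine le_trans (le_of_eq ?_) (mul_le_mul_of_nonneg_right
      (h2 L (Ico N L) fun l hl => (Finset.mem_Ico.mp hl).2.le) (by positivity))
    rw [Finset.sum_mul]
    refine Finset.sum_congr rfl fun l _ => ?_
    rw [← Real.rpow_mul (by norm_num), ← Real.rpow_add (by norm_num),
      ← Real.rpow_mul (by norm_num), ← Real.rpow_mul (by norm_num), ← Real.rpow_add (by norm_num)]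
    congr 1
    field_simp; ring
  · have a3 : (2 : ℝ) ^ ((-a + β) * L) = 2 ^ (-β * L) * 2 ^ (δ * L) := by
      rw [← Real.rpow_add (by norm_num)]; congr 1; rw [hδ]; ring
    have a4 : (2 : ℝ) ^ (-(a - β) * L) = 2 ^ (-β * L) * 2 ^ (δ * L) := by
      rw [← a3]; congr 1; ring
    rw [psi, Real.rpow_zero, mul_one, a3, a4]
    ring

theorem UB3 (n : ℕ) {p : ℝ} (γ : ℝ) (hp : 1 < p) (hp2 : p ≤ 2) :
    UB (sg n p (2 * (1 - p⁻¹)) γ) (-(1 - p⁻¹)) γ 1 := by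
  have hβ0 := beta_pos hp
  obtain ⟨C, hC, h⟩ := upper_small2 n γ hp hp2 (a := 2 * (1 - p⁻¹)) (by linarith)
  set β := 1 - p⁻¹ with hβ
  have hp0 : 0 < p := by linarith
  refine ⟨C * (7 * n + 5), by positivity, ?_⟩
  filter_upwards [exists_N n, ev_log 1] with L ⟨N, hN1, hN2, hN3, hN4, hN5⟩ hlog
  have hJ : (0 : ℝ) < (L - N : ℕ) := by have : 0 < L - N := by omega
                                        exact_mod_cast this
  refine (h L N hN1 hN2 hN3 (fun l => 1) (L - N : ℕ) (((L - N : ℕ) : ℝ) ^ p⁻¹)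
    (fun l => one_pos) hJ (by simp) (by positivity) ?_).trans (ENNReal.ofReal_le_ofReal ?_)
  · rw [Real.rpow_inv_rpow hJ.le hp0.ne']
    simp
  · have a1 : ((L - N : ℕ) : ℝ) ^ β * ((L - N : ℕ) : ℝ) ^ p⁻¹ = (L - N : ℕ) := by
      rw [← Real.rpow_add hJ, hβ]; simp
    have a4 : (2 : ℝ) ^ (-(2 * β - β) * L) = 2 ^ (-β * L) := by congr 1; ring
    rw [psi, Real.rpow_one, a4, mul_assoc C]
    refine mul_le_mul_of_nonneg_left ?_ hC.le
    calc _ = (L : ℝ) ^ γ * 2 ^ (-β * L) *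
          (((L - N : ℕ) : ℝ) ^ β * ((L - N : ℕ) : ℝ) ^ p⁻¹ + 1) := by ring
      _ ≤ (L : ℝ) ^ γ * 2 ^ (-β * L) * ((7 * n + 4) * Real.log L + Real.log L) := by
          rw [a1]; gcongr
      _ = _ := by ring

theorem upper_large2 (n : ℕ) {p a : ℝ} (γ : ℝ) (hp : 2 ≤ p) (ha : 1 - p⁻¹ < a) :
    ∃ C : ℝ, 0 < C ∧ ∀ L N : ℕ, N < L → L ≤ 2 * N → 2 ^ (3 * n + 4) * (2 ^ N * L ^ n) ≤ 2 ^ L →
    ∀ Z : ℝ, ∑ l ∈ Ico N ⌈p * L / 2⌉₊, (2 : ℝ) ^ ((1 - a) * l) ≤ Z →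
    sg n p a γ (2 ^ L) ≤ ENNReal.ofReal (C * ((L : ℝ) ^ γ *
      (2 ^ (-(1 / 2 : ℝ) * L) * Z + 2 ^ (-(a - (1 - p⁻¹)) * p / 2 * L)))) := by
  obtain ⟨K, hK, hE⟩ := Eom_Bom (d := n + 1) (q := 2) (a := a) (by norm_num) le_rfl
    (lt_of_le_of_lt (sub_le_sub_left (inv_anti₀ (by norm_num) hp) 1) ha) γ
  obtain ⟨C1, hC1, h1⟩ := upper_large' (n := n) hp hK
  obtain ⟨hs, C2, hC2, h2⟩ := om_tail ha γ
  set β := 1 - p⁻¹ with hβ
  have hp0 : 0 < p := by linarith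
  refine ⟨C1 * (p ^ |γ| * (2 + C2)), by positivity, fun L N hNL hLN hb Z hZ => ?_⟩
  refine iSup₂_le fun f hf => ?_
  obtain ⟨M, rfl⟩ : ∃ M, L = M + 1 := ⟨L - 1, by omega⟩
  set L := M + 1 with hLM
  have hL1 : (1 : ℝ) ≤ L := by have : 1 ≤ L := by omega
                               exact_mod_cast this
  set L' := ⌈p * L / 2⌉₊ with hL'
  have c1 : p * L / 2 ≤ L' := Nat.le_ceil _
  have c2 : (L' : ℝ) ≤ p * L := by
    have := Nat.ceil_lt_add_one (show 0 ≤ p * L / 2 by positivity)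
    nlinarith
  have c3 : (L : ℝ) ≤ L' := by nlinarith
  have c4 : L ≤ L' := by exact_mod_cast c3
  refine (h1 _ f (om_pos a γ) (hE hf) hs (2 ^ L) (2 ^ M) N L' (by omega) (by omega)
    (by positivity) ?_).trans
    (ENNReal.ofReal_le_ofReal ?_)
  · have := budget hNL hb
    rw [hLM, pow_succ 2 M] at this ⊢
    omega
  have hZ0 : 0 ≤ Z := le_trans (Finset.sum_nonneg fun l _ => by positivity) hZ
  have e1 : ∑ l ∈ Ico N L', 2 ^ l * om a γ l ≤ p ^ |γ| * (L : ℝ) ^ γ * Z := by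
    refine le_trans ?_ (mul_le_mul_of_nonneg_left hZ (by positivity))
    rw [Finset.mul_sum]
    refine Finset.sum_le_sum fun l hl => ?_
    rw [Finset.mem_Ico] at hl
    have l1 : (1 : ℝ) ≤ l := by have : 1 ≤ l := by omega
                                exact_mod_cast this
    have l2 : (l : ℝ) ≤ L' := by exact_mod_cast hl.2.le
    have l3 : (L : ℝ) ≤ 2 * l := by have : L ≤ 2 * l := by omega
                                    exact_mod_cast this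
    have l4 := lam_le (K := p) (L := L) l1 (by linarith) (by linarith) (by nlinarith) γ
    have e3 : (2 : ℝ) ^ ((1 - a) * l) = 2 ^ l * 2 ^ (-a * l) := by
      rw [← Real.rpow_natCast, ← Real.rpow_add (by norm_num)]; congr 1; ring
    rw [om, e3, ← mul_assoc, mul_comm]
    gcongr
  have e2 : (√((2 ^ M : ℕ) : ℝ))⁻¹ ≤ 2 * 2 ^ (-(1 / 2 : ℝ) * L) := by
    push_cast
    rw [Real.sqrt_eq_rpow, ← Real.rpow_natCast, ← Real.rpow_mul (by norm_num),
      ← Real.rpow_neg (by norm_num), mul_comm 2, ← Real.rpow_add_one (by norm_num)]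
    refine Real.rpow_le_rpow_of_exponent_le (by norm_num) ?_
    rw [hLM]; push_cast; linarith
  have e3 := h2 L' (by omega)
  have e4 : (2 : ℝ) ^ (-(a - β) * L') ≤ 2 ^ (-(a - β) * p / 2 * L) := by
    refine Real.rpow_le_rpow_of_exponent_le (by norm_num) ?_
    nlinarith
  have e5 := cmp_rpow (x := L') (y := L) (K := p) (by linarith) (by linarith) c2 (by nlinarith) γ
  rw [mul_assoc, div_eq_mul_inv]
  refine mul_le_mul_of_nonneg_left ?_ hC1.le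
  have n1 : 0 ≤ p ^ |γ| * ((L : ℝ) ^ γ * (2 ^ (-(1 / 2 : ℝ) * L) * Z)) := by positivity
  have n2 : 0 ≤ p ^ |γ| * ((L : ℝ) ^ γ * 2 ^ (-(a - β) * p / 2 * L)) := by positivity
  calc _ ≤ p ^ |γ| * (L : ℝ) ^ γ * Z * (2 * 2 ^ (-(1 / 2 : ℝ) * L)) +
        C2 * (2 ^ (-(a - β) * p / 2 * L) * (p ^ |γ| * (L : ℝ) ^ γ)) := by
        refine add_le_add (by gcongr) (e3.trans ?_)
        gcongr
    _ ≤ _ := by nlinarith [mul_nonneg hC2.le n1]

theorem UB4 (n : ℕ) {p a : ℝ} (γ : ℝ) (hp : 2 ≤ p) (ha : 1 < a) :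
    UB (sg n p a γ) (-a + 1 / 2) (γ + n * (a - 1)) 0 := by
  have hp0 : 0 < p := by linarith
  have hpi : 0 < p⁻¹ := by positivity
  obtain ⟨C, hC, h⟩ := upper_large2 n γ hp (a := a) (by linarith)
  set δ := a - 1 with hδ
  have hδ0 : 0 < δ := by linarith
  obtain ⟨C1, hC1, h1⟩ := geo_down hδ0
  refine ⟨C * (C1 * (2 ^ (4 * n + 4)) ^ δ + 1), by positivity, ?_⟩
  filter_upwards [exists_N n] with L ⟨N, hN1, hN2, hN3, hN4, _⟩
  refine (h L N hN1 hN2 hN3 (C1 * 2 ^ (-δ * N)) ?_).trans (ENNReal.ofReal_le_ofReal ?_)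
  · refine le_trans (le_of_eq ?_) (mul_le_mul_of_nonneg_right
      (h1 N (Ico N ⌈p * L / 2⌉₊) fun l hl => (Finset.mem_Ico.mp hl).1) (by positivity))
    rw [Finset.sum_mul]
    refine Finset.sum_congr rfl fun l _ => ?_
    rw [← Real.rpow_add (by norm_num)]
    congr 1
    rw [hδ]; ring
  · have hL1 : (1 : ℝ) ≤ L := by have : 1 ≤ L := by omega
                                 exact_mod_cast this
    have a1 := pow_N_le (by omega) hN4 hδ0.le
    have a2 : (1 : ℝ) ≤ (L : ℝ) ^ (n * δ) := Real.one_le_rpow hL1 (by positivity)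
    have a3 : (2 : ℝ) ^ ((-a + 1 / 2) * L) = 2 ^ (-(1 / 2 : ℝ) * L) * 2 ^ (-δ * L) := by
      rw [← Real.rpow_add (by norm_num)]; congr 1; rw [hδ]; ring
    have a4 : (2 : ℝ) ^ (-(a - (1 - p⁻¹)) * p / 2 * L) ≤
        2 ^ (-(1 / 2 : ℝ) * L) * 2 ^ (-δ * L) := by
      rw [← a3]
      refine Real.rpow_le_rpow_of_exponent_le (by norm_num)
        (mul_le_mul_of_nonneg_right ?_ (by positivity))
      have : -(a - (1 - p⁻¹)) * p / 2 = -(a - 1) * p / 2 - 1 / 2 := by field_simp; ring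
      rw [this]; nlinarith
    rw [psi, Real.rpow_zero, mul_one, Real.rpow_add (by linarith), a3, mul_assoc C]
    refine mul_le_mul_of_nonneg_left ?_ hC.le
    calc _ ≤ (L : ℝ) ^ γ * (2 ^ (-(1 / 2 : ℝ) * L) * (C1 *
          ((2 ^ (4 * n + 4)) ^ δ * (2 ^ (-δ * L) * (L : ℝ) ^ (n * δ)))) +
          2 ^ (-(1 / 2 : ℝ) * L) * 2 ^ (-δ * L) * (L : ℝ) ^ (n * δ)) := by
          gcongr
          exact a4.trans (le_mul_of_one_le_right (by positivity) a2)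
      _ = _ := by ring

theorem UB5 (n : ℕ) {p a : ℝ} (γ : ℝ) (hp : 2 ≤ p) (ha : 1 - p⁻¹ < a) (ha1 : a < 1) :
    UB (sg n p a γ) (-(a - (1 - p⁻¹)) * p / 2) γ 0 := by
  have hp0 : 0 < p := by linarith
  obtain ⟨C, hC, h⟩ := upper_large2 n γ hp ha
  set δ := 1 - a with hδ
  have hδ0 : 0 < δ := by linarith
  obtain ⟨C1, hC1, h1⟩ := geo_up hδ0
  refine ⟨C * (C1 * 2 ^ δ + 1), by positivity, ?_⟩
  filter_upwards [exists_N n] with L ⟨N, hN1, hN2, hN3, hN4, _⟩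
  refine (h L N hN1 hN2 hN3 (C1 * 2 ^ (δ * ⌈p * L / 2⌉₊)) ?_).trans (ENNReal.ofReal_le_ofReal ?_)
  · refine le_trans (le_of_eq ?_) (mul_le_mul_of_nonneg_right
      (h1 _ (Ico N ⌈p * L / 2⌉₊) fun l hl => (Finset.mem_Ico.mp hl).2.le) (by positivity))
    rw [Finset.sum_mul]
    refine Finset.sum_congr rfl fun l _ => ?_
    rw [← Real.rpow_add (by norm_num)]
    congr 1
    ring
  · have a1 : (2 : ℝ) ^ (-(1 / 2 : ℝ) * L) * 2 ^ (δ * ⌈p * L / 2⌉₊) ≤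
        2 ^ δ * 2 ^ (-(a - (1 - p⁻¹)) * p / 2 * L) := by
      rw [← Real.rpow_add (by norm_num), ← Real.rpow_add (by norm_num)]
      refine Real.rpow_le_rpow_of_exponent_le (by norm_num) ?_
      have c := (Nat.ceil_lt_add_one (show 0 ≤ p * L / 2 by positivity)).le
      have : -(a - (1 - p⁻¹)) * p / 2 = δ * p / 2 - 1 / 2 := by rw [hδ]; field_simp; ring
      rw [this]; nlinarith
    rw [psi, Real.rpow_zero, mul_one, mul_assoc C]
    refine mul_le_mul_of_nonneg_left ?_ hC.le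
    calc _ = (L : ℝ) ^ γ * (C1 * (2 ^ (-(1 / 2 : ℝ) * L) * 2 ^ (δ * ⌈p * L / 2⌉₊)) +
          2 ^ (-(a - (1 - p⁻¹)) * p / 2 * L)) := by ring
      _ ≤ (L : ℝ) ^ γ * (C1 * (2 ^ δ * 2 ^ (-(a - (1 - p⁻¹)) * p / 2 * L)) +
          2 ^ (-(a - (1 - p⁻¹)) * p / 2 * L)) := by gcongr
      _ = _ := by ring

theorem UB6 (n : ℕ) {p : ℝ} (γ : ℝ) (hp : 2 ≤ p) : UB (sg n p 1 γ) (-(1 / 2)) (γ + 1) 0 := by
  have hp0 : 0 < p := by linarith
  have hpi : 0 < p⁻¹ := by positivity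
  obtain ⟨C, hC, h⟩ := upper_large2 n γ hp (a := 1) (by linarith)
  refine ⟨C * (p + 1), by positivity, ?_⟩
  filter_upwards [exists_N n] with L ⟨N, hN1, hN2, hN3, hN4, _⟩
  have hL1 : (1 : ℝ) ≤ L := by have : 1 ≤ L := by omega
                               exact_mod_cast this
  refine (h L N hN1 hN2 hN3 (p * L) ?_).trans (ENNReal.ofReal_le_ofReal ?_)
  · have c := (Nat.ceil_lt_add_one (show 0 ≤ p * L / 2 by positivity)).le
    have c2 : ((⌈p * L / 2⌉₊ - N : ℕ) : ℝ) ≤ ⌈p * L / 2⌉₊ := by exact_mod_cast Nat.sub_le _ _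
    simp only [sub_self, zero_mul, Real.rpow_zero, sum_const, Nat.card_Ico, nsmul_eq_mul, mul_one]
    nlinarith
  · have a1 : -(1 - (1 - p⁻¹)) * p / 2 = -(1 / 2) := by field_simp; ring
    rw [psi, Real.rpow_zero, mul_one, Real.rpow_add_one (by linarith), a1, mul_assoc C]
    refine mul_le_mul_of_nonneg_left ?_ hC.le
    calc _ ≤ (L : ℝ) ^ γ * (2 ^ (-(1 / 2 : ℝ) * L) * (p * L) + 2 ^ (-(1 / 2 : ℝ) * L) * L) := by
          gcongr
          exact le_mul_of_one_le_right (by positivity) hL1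
      _ = _ := by ring

end Pool.Agent.P.MP_33127d_an.SU
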