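import Pool.Agent.P.MP_33127d_an.Sw.Main

namespace Pool.Agent.P.MP_33127d_an

open MeasureTheory Finset Filter

variable {d : ℕ}

theorem small_sub_W (a b : ℝ) : Small d a b ⊆ W d a b := by
  refine fun f hf => ⟨hf.1, fun l => le_trans ?_ (hf.2 l)⟩
  have e : layer l f = ∑ s ∈ AT d l, delta s f := by
    funext x; simp [layer]
  rw [e]
  exact eLpNorm_sum_le (fun s _ => (continuous_tp _ _).aestronglyMeasurable) le_rfl

theorem layer_scale (κ : ℂ) (l : ℕ) (f : TT d → ℂ) :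
    layer l (fun x => κ * f x) = fun x => κ * layer l f x := by
  funext x
  simp only [layer_eq, tp, coef_const_mul, Finset.mul_sum, mul_assoc]

theorem W_scale {a b κ : ℝ} (hκ : 0 < κ) (hκ1 : κ ≤ 1) {f : TT d → ℂ} (hf : f ∈ W d a b) :
    (fun x => (κ : ℂ) * f x) ∈ W d a b := by
  refine ⟨hf.1.const_mul _, fun l => le_trans ?_ (hf.2 l)⟩
  rw [layer_scale, eLp_scale hκ]
  exact mul_le_of_le_one_left' (ENNReal.ofReal_le_one.mpr hκ1)

theorem psum_cross (l : ℕ) (f : TT d → ℂ) : psum (l + 1) f = tp (cross d l) (coef f) := by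
  funext x
  rw [psum, tp, cross, Finset.sum_biUnion]
  · simp only [layer_eq]; rfl
  · intro s _ t _ hst
    rw [Function.onFun, Finset.disjoint_left]
    exact fun k h1 h2 => hst (Delta_unique h1 h2)

theorem om_succ_le {a : ℝ} (ha : 0 < a) (γ : ℝ) (l : ℕ) :
    om a γ (l + 1) ≤ 2 ^ |γ| * om a γ l := by
  have h0 : (0 : ℝ) ≤ l := by positivity
  have h1 := cmp_rpow (y := max (l : ℝ) 1) (x := max ((l + 1 : ℕ) : ℝ) 1) (K := 2)
    (by positivity) (by positivity)
    (by push_cast; exact max_le (by linarith [le_max_left (l : ℝ) 1, le_max_right (l : ℝ) 1])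
          (by linarith [le_max_right (l : ℝ) 1]))
    (by push_cast; exact max_le (by linarith [le_max_left ((l : ℝ) + 1) 1])
          (by linarith [le_max_right ((l : ℝ) + 1) 1])) γ
  have h2 : (2 : ℝ) ^ (-a * (l + 1 : ℕ)) ≤ 2 ^ (-a * l) :=
    Real.rpow_le_rpow_of_exponent_le (by norm_num) (by push_cast; linarith)
  rw [om, om]
  calc _ ≤ 2 ^ (-a * l) * (2 ^ |γ| * max (l : ℝ) 1 ^ γ) := by gcongr
    _ = _ := by ring

/-- The class `W` of the problem satisfies the two hypotheses of the sandwich theorem. -/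
theorem W_between (d : ℕ) (hd : 1 ≤ d) (a b : ℝ) (ha : 0 < a) : ∃ κ : ℝ, 0 < κ ∧
    (∀ f ∈ Small d a b, (fun x => (κ : ℂ) * f x) ∈ W d a b) ∧
    ∀ f ∈ W d a b, (fun x => (κ : ℂ) * f x) ∈ Large d a b := by
  obtain ⟨n, rfl⟩ : ∃ n, d = n + 1 := ⟨d - 1, by omega⟩
  obtain ⟨hs, C, hC, h⟩ := om_tail (β := 0) ha (n * b)
  simp only [zero_mul, Real.rpow_zero, one_mul, sub_zero] at hs h
  set K : ℝ := C * 2 ^ |n * b| + 1 with hK
  have hK1 : 1 ≤ K := by rw [hK]; exact le_add_of_nonneg_left (by positivity)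
  refine ⟨K⁻¹, by positivity, fun f hf =>
    W_scale (by positivity) (inv_le_one_of_one_le₀ hK1) (small_sub_W a b hf), fun f hf => ?_⟩
  refine ⟨hf.1.const_mul _, fun l => ?_⟩
  rw [W_eq] at hf
  have h1 := tail_est le_rfl hf.1 hs hf.2 (l + 1) (continuous_psum (l + 1) f)
  have h2 := h (l + 1) (by omega)
  have h3 : (2 : ℝ) ^ (-a * (l + 1 : ℕ)) * ((l + 1 : ℕ) : ℝ) ^ (n * b) = om a (n * b) (l + 1) := by
    rw [om, max_eq_left (by exact_mod_cast Nat.le_add_left 1 l)]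
  have h4 := om_succ_le ha (n * b) l
  have h5 := om_pos a (n * b) l
  rw [h3] at h2
  rw [ENNReal.ofReal_one, psum_cross] at h1
  refine (iInf_le _ fun k => ((K⁻¹ : ℝ) : ℂ) * coef f k).trans ?_
  have e1 : (fun x => ((K⁻¹ : ℝ) : ℂ) * f x - ∑ k ∈ cross (n + 1) l,
      ((K⁻¹ : ℝ) : ℂ) * coef f k * UnitAddTorus.mFourier k x) =
      fun x => ((K⁻¹ : ℝ) : ℂ) * (f x - tp (cross (n + 1) l) (coef f) x) := by
    funext x
    simp only [tp, mul_sub, Finset.mul_sum, mul_assoc, e]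
  rw [e1, eLp_scale (by positivity), wgt_eq]
  refine (mul_le_mul_right h1 _).trans ?_
  rw [← ENNReal.ofReal_mul (by positivity)]
  refine ENNReal.ofReal_le_ofReal ?_
  rw [inv_mul_le_iff₀ (by positivity)]
  simp only [sub_self, Np_one, norm_zero, integral_zero, zero_add]
  refine h2.trans ((mul_le_mul_of_nonneg_left h4 hC.le).trans ?_)
  rw [hK]; nlinarith

end Pool.Agent.P.MP_33127d_an
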