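import Pool.Agent.P.MP_33127d_an.Defs

namespace Pool.Agent.P.MP_33127d_an

open MeasureTheory

/-- The weight `2^{-al} max(l,1)^{(d-1)b}`. -/
noncomputable def wgt (d : ℕ) (a b : ℝ) (l : ℕ) : ℝ :=
  (2 : ℝ) ^ (-a * l) * (max (l : ℝ) 1) ^ (((d : ℝ) - 1) * b)

/-- The step hyperbolic cross `Q_l`, the union of the blocks `ρ(s)` with `‖s‖_1 ≤ l`. -/
noncomputable def cross (d l : ℕ) : Finset (Fin d → ℤ) :=
  (Finset.range (l + 1)).biUnion fun j => (Finset.Nat.antidiagonalTuple d j).biUnion rho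

/-- Best `L_1` approximation of `f` by trigonometric polynomials with frequencies in `Q_l`. -/
noncomputable def bestL1 {d : ℕ} (l : ℕ) (f : UnitAddTorus (Fin d) → ℂ) : ENNReal :=
  ⨅ c : (Fin d → ℤ) → ℂ,
    eLpNorm (fun x => f x - ∑ k ∈ cross d l, c k * UnitAddTorus.mFourier k x) 1 (haar d)

/-- The small class: the `L_1` norms of the blocks of each layer have a small sum. -/
def Small (d : ℕ) (a b : ℝ) : Set (UnitAddTorus (Fin d) → ℂ) :=
  {f | Integrable f (haar d) ∧ ∀ l : ℕ,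
    ∑ s ∈ Finset.Nat.antidiagonalTuple d l, eLpNorm (delta s f) 1 (haar d) ≤
      ENNReal.ofReal (wgt d a b l)}

/-- The large class: the best `L_1` hyperbolic cross approximations are small. -/
def Large (d : ℕ) (a b : ℝ) : Set (UnitAddTorus (Fin d) → ℂ) :=
  {f | Integrable f (haar d) ∧ ∀ l : ℕ, bestL1 l f ≤ ENNReal.ofReal (wgt d a b l)}

end Pool.Agent.P.MP_33127d_an
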