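import Pool.Agent.P.MP_33127d_an.Asym3
import Pool.Agent.P.MP_33127d_an.Sw.Defs

namespace Pool.Agent.P.MP_33127d_an

open MeasureTheory Finset Filter Topology

variable {d : ℕ}

abbrev AT (d l : ℕ) : Finset (Fin d → ℕ) := Finset.Nat.antidiagonalTuple d l

theorem mem_AT {l : ℕ} {s : Fin d → ℕ} : s ∈ AT d l ↔ wt s = l :=
  Finset.Nat.mem_antidiagonalTuple

noncomputable def Lo (d N : ℕ) : Finset (Fin d → ℕ) := (range N).biUnion (AT d)

theorem mem_Lo {N : ℕ} {s : Fin d → ℕ} : s ∈ Lo d N ↔ wt s < N := by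
  simp [Lo, Finset.Nat.mem_antidiagonalTuple, wt]

theorem AT_disj (S : Finset ℕ) : Set.PairwiseDisjoint (S : Set ℕ) (AT d) := by
  intro s _ t _ hst
  rw [Function.onFun, Finset.disjoint_left]
  exact fun k h1 h2 => hst ((mem_AT.mp h1).symm.trans (mem_AT.mp h2))

theorem sum_Lo {M : Type*} [AddCommMonoid M] (N : ℕ) (g : (Fin d → ℕ) → M) :
    ∑ s ∈ Lo d N, g s = ∑ l ∈ range N, ∑ s ∈ AT d l, g s :=
  Finset.sum_biUnion (AT_disj _)

theorem mem_cross {l : ℕ} {k : ZZ d} : k ∈ cross d l ↔ ∃ j, j ≤ l ∧ k ∈ Delta d j := by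
  simp [cross, Delta]

theorem cross_mono {l l' : ℕ} (h : l ≤ l') : cross d l ⊆ cross d l' := fun _ hk => by
  obtain ⟨j, hj, hk⟩ := mem_cross.mp hk
  exact mem_cross.mpr ⟨j, hj.trans h, hk⟩

theorem aS_mem_Sh {l : ℕ} {k : ZZ d} (hk : k ∈ Delta d l) {s : Fin d → ℕ} (hs : aS s k ≠ 0) :
    s ∈ Sh d l := by
  obtain ⟨t, ht, hk⟩ := mem_Delta.mp hk
  rw [mem_rho] at hk
  have h1 : ∀ j, s j ≤ t j ∧ t j ≤ s j + 1 := fun j =>
    ab_ne_zero (hk j).1 (hk j).2 fun h0 => hs (Finset.prod_eq_zero (Finset.mem_univ j) h0)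
  rw [Sh, Finset.mem_filter, Fintype.mem_piFinset, ← ht]
  refine ⟨fun j => ?_, ?_, Finset.sum_le_sum fun j _ => (h1 j).1⟩
  · have := Finset.single_le_sum (f := t) (fun _ _ => Nat.zero_le _) (Finset.mem_univ j)
    have := (h1 j).1
    rw [Finset.mem_range, wt]
    omega
  · have := Finset.sum_le_sum fun j (_ : j ∈ Finset.univ) => (h1 j).2
    simpa [wt, Finset.sum_add_distrib] using this

theorem sum_aS_Lo {l N : ℕ} {k : ZZ d} (hk : k ∈ Delta d l) (hN : l < N) :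
    ∑ s ∈ Lo d N, aS s k = 1 := by
  rw [← sum_aS hk]
  symm
  refine Finset.sum_subset (fun s hs => mem_Lo.mpr ?_) fun s _ hs => ?_
  · exact (Finset.mem_filter.mp hs).2.2.trans_lt hN
  · by_contra hc
    exact hs (aS_mem_Sh hk hc)

theorem cross_decomp (l : ℕ) (c : ZZ d → ℂ) (x : TT d) :
    tp (cross d l) c x = ∑ s ∈ Lo d (l + 1), Op s (aS s) (tp (cross d l) c) x := by
  simp only [Op_tp, tp]
  rw [Finset.sum_comm]
  refine Finset.sum_congr rfl fun k hk => ?_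
  obtain ⟨j, hj, hk⟩ := mem_cross.mp hk
  rw [← Finset.sum_mul, ← Finset.sum_mul, ← Complex.ofReal_sum, sum_aS_Lo hk (by omega)]
  simp

theorem kcross {q : ℝ} (hq : 1 < q) (hq2 : q ≤ 2) : ∃ C : ℝ, 0 < C ∧
    ∀ (j l : ℕ) (c : ZZ d → ℂ), ∑ s ∈ AT d l, Np q (Op s (aS s) (tp (cross d j) c)) ≤
      C * (2 : ℝ) ^ ((1 - q⁻¹) * j) * Np 1 (tp (cross d j) c) := by
  classical
  obtain ⟨C, hC, h⟩ := klemma (d := d) hq hq2
  refine ⟨C, hC, fun j l c => ?_⟩
  refine le_trans ?_ (h j _ _ (continuous_tp _ c)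
    (fun s hs => Nat.lt_succ_iff.mp (mem_Lo.mp hs)) (cross_decomp j c))
  rcases le_or_gt l j with hl | hl
  · exact Finset.sum_le_sum_of_subset_of_nonneg
      (fun s hs => mem_Lo.mpr (by rw [mem_AT.mp hs]; omega)) fun _ _ _ => Np_nonneg _ _
  · refine le_trans (le_of_eq (Finset.sum_eq_zero fun s hs => ?_))
      (Finset.sum_nonneg fun _ _ => Np_nonneg _ _)
    have : Op s (aS s) (tp (cross d j) c) = fun _ => 0 := by
      rw [Op_tp]
      funext x
      refine Finset.sum_eq_zero fun k hk => ?_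
      obtain ⟨i, hi, hk⟩ := mem_cross.mp hk
      have : aS s k = 0 := by
        by_contra hc
        have := (Finset.mem_filter.mp (aS_mem_Sh hk hc)).2.2
        rw [mem_AT.mp hs] at this
        omega
      simp [this]
    rw [this]
    simp [Np, Real.zero_rpow (show q ≠ 0 by linarith), Real.zero_rpow (show q⁻¹ ≠ 0 by positivity)]

theorem Op_zero_cross {l j : ℕ} (hl : j < l) {s : Fin d → ℕ} (hs : s ∈ AT d l) (c : ZZ d → ℂ)
    (x : TT d) : Op s (aS s) (tp (cross d j) c) x = 0 := by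
  rw [Op_tp]
  refine Finset.sum_eq_zero fun k hk => ?_
  obtain ⟨i, hi, hk⟩ := mem_cross.mp hk
  have : aS s k = 0 := by
    by_contra hc
    have := (Finset.mem_filter.mp (aS_mem_Sh hk hc)).2.2
    rw [mem_AT.mp hs] at this
    omega
  simp [this]

theorem Op_sub (s : Fin d → ℕ) (m : ZZ d → ℝ) {f g : TT d → ℂ} (hf : Integrable f (haar d))
    (hg : Integrable g (haar d)) (x : TT d) :
    Op s m (fun x => f x - g x) x = Op s m f x - Op s m g x := by
  simp only [Op, tp, coef_sub hf hg, mul_sub, sub_mul, Finset.sum_sub_distrib]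

theorem Np_le_sup {p M : ℝ} (hp : 0 < p) {u : TT d → ℂ} (hu : Continuous u)
    (h : ∀ x, ‖u x‖ ≤ M) : Np p u ≤ M := by
  have hM : 0 ≤ M := (norm_nonneg _).trans (h 0)
  refine Np_le_of_integral_le hp hM ?_
  refine (integral_mono (cint (hu.norm.rpow_const fun _ => Or.inr hp.le))
    (integrable_const (M ^ p)) fun x => Real.rpow_le_rpow (norm_nonneg _) (h x) hp.le).trans ?_
  simp

theorem Np_Op_le {q : ℝ} (hq : 0 < q) (s : Fin d → ℕ) (m : ZZ d → ℝ) (h : TT d → ℂ) :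
    Np q (Op s m h) ≤ (∑ k ∈ box s, |m k|) * ∫ x, ‖h x‖ ∂haar d := by
  refine Np_le_sup hq (continuous_Op _ _ _) fun x => (norm_tp_le _ _ _).trans ?_
  rw [Finset.sum_mul]
  refine Finset.sum_le_sum fun k _ => ?_
  rw [norm_mul, Complex.norm_real, Real.norm_eq_abs]
  exact mul_le_mul_of_nonneg_left (norm_coef_le _ _) (abs_nonneg _)

/-- approximation class with real bounds -/
def Eom (d : ℕ) (ω : ℕ → ℝ) : Set (TT d → ℂ) :=
  {f | Integrable f (haar d) ∧ ∀ l, ∃ c, ∫ x, ‖f x - tp (cross d l) c x‖ ∂haar d ≤ ω l}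

/-- block class -/
def Bom (d : ℕ) (q K : ℝ) (ω : ℕ → ℝ) : Set (TT d → ℂ) :=
  {f | Integrable f (haar d) ∧ ∀ l, 1 ≤ l →
    ∑ s ∈ AT d l, Np q (Op s (aS s) f) ≤ K * (2 : ℝ) ^ ((1 - q⁻¹) * l) * ω l}

theorem block_est {q : ℝ} (hq : 1 < q) (hq2 : q ≤ 2) : ∃ C : ℝ, 0 < C ∧
    ∀ (ω : ℕ → ℝ) (f : TT d → ℂ), f ∈ Eom d ω → Tendsto ω atTop (𝓝 0) →
    ∀ (l : ℕ) (Z : ℝ), (∀ J, ∑ j ∈ range J,
      (2 : ℝ) ^ ((1 - q⁻¹) * (l + j + 1 : ℕ)) * (ω (l + j + 1) + ω (l + j)) ≤ Z) →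
    ∑ s ∈ AT d (l + 1), Np q (Op s (aS s) f) ≤ C * Z := by
  obtain ⟨C, hC, h⟩ := kcross (d := d) hq hq2
  refine ⟨C, hC, fun ω f hf hω l Z hZ => ?_⟩
  obtain ⟨hfi, hf⟩ := hf
  choose c hc using hf
  have hq0 : 0 < q := by linarith
  set t : ℕ → TT d → ℂ := fun j => tp (cross d j) (c j) with ht
  have htc : ∀ j, Continuous (t j) := fun j => continuous_tp _ _
  have hu : ∀ j, ∃ c', (fun x => t (j + 1) x - t j x) = tp (cross d (j + 1)) c' := by
    intro j
    refine ⟨fun k => c (j + 1) k - if k ∈ cross d j then c j k else 0, ?_⟩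
    funext x
    simp only [ht]
    rw [tp_subset (cross_mono (Nat.le_succ j))]
    simp only [tp, sub_mul, Finset.sum_sub_distrib]
  have hun : ∀ j, Np 1 (fun x => t (j + 1) x - t j x) ≤ ω (j + 1) + ω j := by
    intro j
    have i1 := (hfi.sub (cint (htc (j + 1)))).norm
    have i2 := (hfi.sub (cint (htc j))).norm
    rw [Np_one]
    refine le_trans ?_ (add_le_add (hc (j + 1)) (hc j))
    refine le_trans ?_ (integral_add i1 i2).le
    refine integral_mono (cint ((htc _).sub (htc _)).norm) (i1.add i2) fun x => ?_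
    have : t (j + 1) x - t j x = (f x - t j x) - (f x - t (j + 1) x) := by ring
    simp only [this, Pi.sub_apply]
    exact (norm_sub_le _ _).trans (le_of_eq (add_comm _ _))
  have key : ∀ J, ∑ s ∈ AT d (l + 1), Np q (Op s (aS s) f) ≤
      C * Z + (∑ s ∈ AT d (l + 1), ∑ k ∈ box s, |aS s k|) * ω (l + J) := by
    intro J
    have e1 : ∀ s ∈ AT d (l + 1), Np q (Op s (aS s) f) ≤
        ∑ j ∈ range J, Np q (Op s (aS s) fun x => t (l + j + 1) x - t (l + j) x) +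
          (∑ k ∈ box s, |aS s k|) * ω (l + J) := by
      intro s hs
      have e2 : Op s (aS s) f = fun x =>
          ∑ j ∈ range J, Op s (aS s) (fun x => t (l + j + 1) x - t (l + j) x) x +
            Op s (aS s) (fun x => f x - t (l + J) x) x := by
        funext x
        simp only [Op_sub s _ (cint (htc _)) (cint (htc _)), Op_sub s _ hfi (cint (htc _))]
        have e3 := Finset.sum_range_sub (fun j => Op s (aS s) (t (l + j)) x) J
        simp only [← add_assoc] at e3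
        rw [e3]
        have := Op_zero_cross (Nat.lt_succ_self l) hs (c l) x
        simp only [ht, add_zero, this]
        ring
      rw [e2]
      refine (Np_add_le hq.le (by fun_prop) (by fun_prop)).trans (add_le_add
        (Np_sum_le hq.le _ fun j => continuous_Op _ _ _) ((Np_Op_le hq0 _ _ _).trans ?_))
      exact mul_le_mul_of_nonneg_left (hc _) (Finset.sum_nonneg fun _ _ => abs_nonneg _)
    refine (Finset.sum_le_sum e1).trans ?_
    rw [Finset.sum_add_distrib, ← Finset.sum_mul, Finset.sum_comm]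
    refine add_le_add ?_ le_rfl
    refine le_trans ?_ (mul_le_mul_of_nonneg_left (hZ J) hC.le)
    rw [Finset.mul_sum]
    refine Finset.sum_le_sum fun j _ => ?_
    obtain ⟨c', hc'⟩ := hu (l + j)
    have h3 := hun (l + j)
    rw [hc'] at h3 ⊢
    refine (h _ _ c').trans ?_
    rw [mul_assoc]
    gcongr
  have hlim : Tendsto (fun J => C * Z + (∑ s ∈ AT d (l + 1), ∑ k ∈ box s, |aS s k|) * ω (l + J))
      atTop (𝓝 (C * Z + (∑ s ∈ AT d (l + 1), ∑ k ∈ box s, |aS s k|) * 0)) := by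
    refine tendsto_const_nhds.add (Tendsto.const_mul _ ?_)
    exact hω.comp (tendsto_atTop_mono (fun J => Nat.le_add_left J l) tendsto_id)
  rw [mul_zero, add_zero] at hlim
  exact ge_of_tendsto' hlim key

theorem om_le_succ (a γ : ℝ) (l : ℕ) : om a γ l ≤ 2 ^ a * 2 ^ |γ| * om a γ (l + 1) := by
  have h0 : (0 : ℝ) ≤ l := by positivity
  have h1 := cmp_rpow (x := max (l : ℝ) 1) (y := max ((l + 1 : ℕ) : ℝ) 1) (K := 2)
    (by positivity) (by positivity)
    (by push_cast; exact max_le (by linarith [le_max_left ((l : ℝ) + 1) 1])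
          (by linarith [le_max_right ((l : ℝ) + 1) 1]))
    (by push_cast; exact max_le (by linarith [le_max_left (l : ℝ) 1, le_max_right (l : ℝ) 1])
          (by linarith [le_max_right (l : ℝ) 1])) γ
  have h2 : (2 : ℝ) ^ (-a * l) = 2 ^ a * 2 ^ (-a * (l + 1 : ℕ)) := by
    rw [← Real.rpow_add (by norm_num)]; congr 1; push_cast; ring
  rw [om, om, h2]
  calc _ ≤ 2 ^ a * 2 ^ (-a * (l + 1 : ℕ)) * (2 ^ |γ| * max ((l + 1 : ℕ) : ℝ) 1 ^ γ) := by gcongr
    _ = _ := by ring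

theorem om_tendsto {a : ℝ} (ha : 0 < a) (γ : ℝ) : Tendsto (om a γ) atTop (𝓝 0) := by
  have := (om_tail (β := 0) ha γ).1.tendsto_atTop_zero
  simpa using this

theorem Eom_Bom {q a : ℝ} (hq : 1 < q) (hq2 : q ≤ 2) (ha : 1 - q⁻¹ < a) (γ : ℝ) :
    ∃ K : ℝ, 0 < K ∧ Eom d (om a γ) ⊆ Bom d q K (om a γ) := by
  obtain ⟨C, hC, h⟩ := block_est (d := d) hq hq2
  obtain ⟨hs, C2, hC2, h2⟩ := om_tail ha γ
  have hβ := beta_pos hq
  refine ⟨C * ((1 + 2 ^ a * 2 ^ |γ|) * C2), by positivity, fun f hf => ⟨hf.1, fun l hl => ?_⟩⟩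
  obtain ⟨l, rfl⟩ : ∃ j, l = j + 1 := ⟨l - 1, by omega⟩
  refine (h _ f hf (om_tendsto (by linarith) γ) l
    ((1 + 2 ^ a * 2 ^ |γ|) * (C2 * (2 ^ ((1 - q⁻¹) * (l + 1 : ℕ)) * om a γ (l + 1))))
    fun J => ?_).trans (le_of_eq (by ring))
  have h3 := h2 (l + 1) hl
  have e1 : (2 : ℝ) ^ (-(a - (1 - q⁻¹)) * (l + 1 : ℕ)) * ((l + 1 : ℕ) : ℝ) ^ γ =
      2 ^ ((1 - q⁻¹) * (l + 1 : ℕ)) * om a γ (l + 1) := by
    rw [om, max_eq_left (by exact_mod_cast hl), ← mul_assoc, ← Real.rpow_add (by norm_num)]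
    congr 2; ring
  rw [e1] at h3
  refine le_trans ?_ (mul_le_mul_of_nonneg_left h3 (by positivity))
  refine le_trans ?_ (mul_le_mul_of_nonneg_left
    (((summable_nat_add_iff (l + 1)).mpr hs).sum_le_tsum (range J) fun j _ => by
      have := om_pos a γ (j + (l + 1)); positivity) (by positivity))
  rw [Finset.mul_sum]
  refine Finset.sum_le_sum fun j _ => ?_
  rw [show j + (l + 1) = l + j + 1 by ring]
  have := om_le_succ a γ (l + j)
  calc _ ≤ (2 : ℝ) ^ ((1 - q⁻¹) * (l + j + 1 : ℕ)) *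
        (om a γ (l + j + 1) + 2 ^ a * 2 ^ |γ| * om a γ (l + j + 1)) := by gcongr
    _ = _ := by ring

end Pool.Agent.P.MP_33127d_an
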