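import Pool.Agent.P.MP_33127d_an.Sw.AsymU
import Pool.Agent.P.MP_33127d_an.Sw.AsymL

namespace Pool.Agent.P.MP_33127d_an

open MeasureTheory Finset Filter

variable {d : ℕ}

theorem eLp_scale {κ : ℝ} (hκ : 0 < κ) (g : TT d → ℂ) (P : ENNReal) :
    eLpNorm (fun x => (κ : ℂ) * g x) P (haar d) = ENNReal.ofReal κ * eLpNorm g P (haar d) := by
  have := eLpNorm_const_smul (κ : ℂ) g P (haar d)
  rw [← ofReal_norm, Complex.norm_real, Real.norm_of_nonneg hκ.le] at this
  exact this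

theorem sigma_scale {κ : ℝ} (hκ : 0 < κ) (m : ℕ) (p : ℝ) (f : TT d → ℂ) :
    ENNReal.ofReal κ * sigma m p f ≤ sigma m p fun x => κ * f x := by
  refine le_iInf fun K => le_iInf fun hK => le_iInf fun c => ?_
  have h1 : sigma m p f ≤ eLpNorm (fun x => f x - tp K (fun k => c k / κ) x) _ _ :=
    sigma_le ⟨K, _, hK, rfl⟩
  refine (mul_le_mul_right h1 _).trans (le_of_eq ?_)
  rw [← eLp_scale hκ]
  congr 1
  funext x
  have : (κ : ℂ) ≠ 0 := by exact_mod_cast hκ.ne'
  rw [mul_sub, tp, Finset.mul_sum]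
  congr 1
  refine Finset.sum_congr rfl fun k _ => ?_
  rw [e]; field_simp

theorem class_scale {κ : ℝ} (hκ : 0 < κ) (m : ℕ) (p : ℝ) {F G : Set (TT d → ℂ)}
    (h : ∀ f ∈ F, (fun x => (κ : ℂ) * f x) ∈ G) :
    ENNReal.ofReal κ * sigmaClass m p F ≤ sigmaClass m p G := by
  simp only [sigmaClass, ENNReal.mul_iSup]
  exact iSup₂_le fun f hf => (sigma_scale hκ m p f).trans (le_iSup₂_of_le _ (h f hf) le_rfl)

theorem UB.scale {σ τ : ℕ → ENNReal} {κ A G k : ℝ} (hκ : 0 < κ)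
    (h : ∀ m, ENNReal.ofReal κ * σ m ≤ τ m) (hU : UB τ A G k) : UB σ A G k := by
  obtain ⟨C, hC, hU⟩ := hU
  refine ⟨κ⁻¹ * C, by positivity, ?_⟩
  filter_upwards [hU] with L hL
  rw [mul_assoc, ENNReal.ofReal_mul (by positivity)]
  refine le_trans (le_of_eq ?_) (mul_le_mul_right ((h _).trans hL) _)
  rw [← mul_assoc, ← ENNReal.ofReal_mul (by positivity), inv_mul_cancel₀ hκ.ne']
  simp

theorem LB.scale {σ τ : ℕ → ENNReal} {κ A G k : ℝ} (hκ : 0 < κ)
    (h : ∀ m, ENNReal.ofReal κ * σ m ≤ τ m) (hL : LB σ A G k) : LB τ A G k := by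
  obtain ⟨c, hc, hL⟩ := hL
  refine ⟨κ * c, by positivity, ?_⟩
  filter_upwards [hL] with L hL
  rw [mul_assoc, ENNReal.ofReal_mul hκ.le]
  exact (mul_le_mul_right hL _).trans (h _)

theorem wgt_eq (n : ℕ) (a b : ℝ) : wgt (n + 1) a b = om a (n * b) := by
  funext l
  simp [wgt, om]

theorem delta_eq (s : Fin d → ℕ) (f : TT d → ℂ) : delta s f = tp (rho s) (coef f) := rfl

theorem eLp_one {u : TT d → ℂ} (hu : Continuous u) :
    eLpNorm u 1 (haar d) = ENNReal.ofReal (Np 1 u) := by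
  have h := eLpNorm_eq_Np one_pos hu
  rwa [ENNReal.ofReal_one] at h

theorem test_small {ω : ℕ → ℝ} {f : TT d → ℂ} (hf : f ∈ SL.Wom d ω) (l : ℕ) :
    ∑ t ∈ AT d l, eLpNorm (delta t f) 1 (haar d) ≤ ENNReal.ofReal (ω l) := by
  classical
  obtain ⟨S, α, hα, h, rfl⟩ := hf
  have e1 : ∀ t, delta t (testf S α) =
      fun x => ∑ s ∈ S with (fun j => s j + 2) = t, α s * FF s x := by
    intro t
    funext x
    rw [delta_eq, tp, Finset.sum_filter]
    simp only [coef_testf, Finset.sum_mul]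
    rw [Finset.sum_comm]
    refine Finset.sum_congr rfl fun s _ => ?_
    split_ifs with hs
    · have hsub : supp s ⊆ rho t := fun k hk => hs ▸ supp_rho hk
      rw [FF, tp_subset hsub, tp, Finset.mul_sum]
      simp only [mul_assoc]
    · refine Finset.sum_eq_zero fun k hk => ?_
      rw [if_neg, mul_zero, zero_mul]
      exact fun hc => hs (rho_unique (supp_rho hc) hk)
  have e2 : ∀ t, Np 1 (delta t (testf S α)) ≤ ∑ s ∈ S with (fun j => s j + 2) = t, α s := by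
    intro t
    rw [e1]
    refine (Np_sum_le le_rfl _ fun s => by fun_prop).trans (Finset.sum_le_sum fun s _ => ?_)
    rw [Np_const_mul one_pos, Np_one_FF, Complex.norm_real, Real.norm_of_nonneg (hα s), mul_one]
  simp only [delta_eq] at e2 ⊢
  simp only [eLp_one (continuous_tp _ _)]
  rw [← ENNReal.ofReal_sum_of_nonneg fun _ _ => Np_nonneg _ _]
  refine ENNReal.ofReal_le_ofReal ((Finset.sum_le_sum fun t _ => e2 t).trans (le_trans ?_ (h l)))
  simp only [Finset.sum_filter]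
  rw [Finset.sum_comm]
  refine Finset.sum_le_sum fun s _ => le_of_eq ?_
  have hw : wt (fun j => s j + 2) = wt s + 2 * d := by
    simp [wt, Finset.sum_add_distrib, mul_comm]
  rw [Finset.sum_ite_eq]
  simp only [mem_AT, hw]

theorem large_eom {ω : ℕ → ℝ} (hω : ∀ l, 0 < ω l) {f : TT d → ℂ} (hf : Integrable f (haar d))
    (h : ∀ l, bestL1 l f ≤ ENNReal.ofReal (ω l)) :
    (fun x => ((2⁻¹ : ℝ) : ℂ) * f x) ∈ Eom d ω := by
  refine ⟨hf.const_mul _, fun l => ?_⟩
  have h1 : bestL1 l f < ENNReal.ofReal (2 * ω l) :=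
    (h l).trans_lt ((ENNReal.ofReal_lt_ofReal_iff (by linarith [hω l])).mpr (by linarith [hω l]))
  obtain ⟨c, hc⟩ := iInf_lt_iff.mp h1
  have hi : Integrable (fun x => f x - tp (cross d l) c x) (haar d) :=
    hf.sub (cint (continuous_tp _ _))
  have h2 : eLpNorm (fun x => f x - tp (cross d l) c x) 1 (haar d) ≤ ENNReal.ofReal (2 * ω l) :=
    hc.le
  rw [eLpNorm_one_eq_lintegral_enorm, ← ofReal_integral_norm_eq_lintegral_enorm hi,
    ENNReal.ofReal_le_ofReal_iff (by linarith [hω l])] at h2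
  refine ⟨fun k => ((2⁻¹ : ℝ) : ℂ) * c k, ?_⟩
  have e1 : ∀ x, ‖((2⁻¹ : ℝ) : ℂ) * f x - tp (cross d l) (fun k => ((2⁻¹ : ℝ) : ℂ) * c k) x‖ =
      2⁻¹ * ‖f x - tp (cross d l) c x‖ := by
    intro x
    simp only [tp, mul_assoc, ← Finset.mul_sum, ← mul_sub, norm_mul, Complex.norm_real]
    norm_num
  simp only [e1, integral_const_mul]
  linarith

theorem sandwich (d : ℕ) (hd : 2 ≤ d) (p a b : ℝ) (hp : 1 < p) (ha : 1 - 1 / p < a)
    (F : Set (UnitAddTorus (Fin d) → ℂ)) (κ : ℝ) (hκ : 0 < κ)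
    (hS : ∀ f ∈ Small d a b, (fun x => (κ : ℂ) * f x) ∈ F)
    (hL : ∀ f ∈ F, (fun x => (κ : ℂ) * f x) ∈ Large d a b) :
    ∃ c C : ℝ, 0 < c ∧ 0 < C ∧ ∀ᶠ m : ℕ in atTop,
      ENNReal.ofReal (c * order d p a b m) ≤ sigmaClass m p F ∧
      sigmaClass m p F ≤ ENNReal.ofReal (C * order d p a b m) := by
  obtain ⟨n, rfl⟩ : ∃ n, d = n + 1 := ⟨d - 1, by omega⟩
  have hn : 1 ≤ n := by omega
  have hA : Antitone fun m => sigmaClass m p F := sigmaClass_antitone p _
  have e0 : ((n + 1 : ℕ) : ℝ) - 1 = n := by simp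
  have hlo : ∀ m, ENNReal.ofReal κ * SL.sg n p a (n * b) m ≤ sigmaClass m p F := fun m =>
    class_scale hκ m p fun f hf => hS f ⟨by
      obtain ⟨S, α, -, -, rfl⟩ := hf
      exact cint (by fun_prop), fun l => by rw [wgt_eq]; exact test_small hf l⟩
  have hκ2 : 0 < 2⁻¹ * κ := by positivity
  have hup : ∀ m, ENNReal.ofReal (2⁻¹ * κ) * sigmaClass m p F ≤ SU.sg n p a (n * b) m := fun m =>
    class_scale hκ2 m p fun f hf => by
      have h1 := hL f hf
      have h2 := large_eom (om_pos a (n * b)) h1.1 fun l => by rw [← wgt_eq]; exact h1.2 l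
      simpa only [Complex.ofReal_mul, mul_assoc] using h2
  rw [one_div] at ha
  simp only [order, one_div, e0]
  split_ifs with h1 h2 h3 h4 h5
  · have := transfer hA ((SU.UB1 n (n * b) hp h1 h2).scale hκ2 hup)
      ((SL.LB1 hn (n * b) hp h1 ha).scale hκ hlo)
    simp only [Real.rpow_zero, mul_one] at this
    rwa [show n * (a + b - 2 * (1 - p⁻¹)) = n * b + n * (a - 2 * (1 - p⁻¹)) by ring]
  · have := transfer hA ((SU.UB2 n (n * b) hp h1 ha h3).scale hκ2 hup)
      ((SL.LB2 n (n * b) hp h1).scale hκ hlo)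
    simpa only [Real.rpow_zero, mul_one] using this
  · obtain rfl : a = 2 * (1 - p⁻¹) := le_antisymm (not_lt.mp h2) (not_lt.mp h3)
    have := transfer hA ((SU.UB3 n (n * b) hp h1).scale hκ2 hup)
      ((SL.LB3 hn (n * b) hp h1).scale hκ hlo)
    simp only [Real.rpow_one] at this
    rwa [show -(2 * (1 - p⁻¹)) + (1 - p⁻¹) = -(1 - p⁻¹) by ring]
  · have := transfer hA ((SU.UB4 n (n * b) (not_le.mp h1).le h4).scale hκ2 hup)
      ((SL.LB4 hn (n * b) (not_le.mp h1).le h4).scale hκ hlo)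
    simp only [Real.rpow_zero, mul_one, one_div] at this
    rwa [show n * (a - 1 + b) = n * b + n * (a - 1) by ring]
  · have := transfer hA ((SU.UB5 n (n * b) (not_le.mp h1).le ha h5).scale hκ2 hup)
      ((SL.LB5 n (n * b) (not_le.mp h1).le ha).scale hκ hlo)
    simpa only [Real.rpow_zero, mul_one] using this
  · obtain rfl : a = 1 := le_antisymm (not_lt.mp h4) (not_lt.mp h5)
    have := transfer hA ((SU.UB6 n (n * b) (not_le.mp h1).le).scale hκ2 hup)
      ((SL.LB6 n (n * b) (not_le.mp h1)).scale hκ hlo)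
    simpa only [Real.rpow_zero, mul_one, one_div] using this

end Pool.Agent.P.MP_33127d_an
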