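import Pool.Agent.P.MP_33127d_an.Sw.Blocks

namespace Pool.Agent.P.MP_33127d_an

open MeasureTheory Finset Filter Topology

variable {d : ℕ}

noncomputable def sl (l : ℕ) (f : TT d → ℂ) (x : TT d) : ℂ := ∑ s ∈ AT d l, Op s (aS s) f x

@[fun_prop] theorem continuous_sl (l : ℕ) (f : TT d → ℂ) : Continuous (sl l f) := by
  unfold sl; fun_prop

noncomputable def ps (N : ℕ) (f : TT d → ℂ) (x : TT d) : ℂ := ∑ l ∈ range N, sl l f x

@[fun_prop] theorem continuous_ps (N : ℕ) (f : TT d → ℂ) : Continuous (ps N f) := by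
  unfold ps; fun_prop

theorem card_box' (s : Fin d → ℕ) : (box s).card ≤ 8 ^ d * 2 ^ wt s := by
  exact_mod_cast card_box s

theorem TP_ps (n N : ℕ) (f : TT (n + 1) → ℂ) : TP (8 ^ (n + 1) * 2 ^ N * N ^ n) (ps N f) := by
  have h := TP.sum (range N) (j := fun l => 8 ^ (n + 1) * 2 ^ l * N ^ n)
    (u := fun l => sl l f) fun l hl => by
      have h1 := TP.sum (AT (n + 1) l) (j := fun _ => 8 ^ (n + 1) * 2 ^ l)
        (u := fun s => Op s (aS s) f) fun s hs =>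
          ⟨_, _, (card_box' s).trans (by rw [mem_AT.mp hs]), rfl⟩
      refine TP.mono h1 ?_
      rw [Finset.sum_const, smul_eq_mul, mul_comm]
      exact Nat.mul_le_mul_left _ ((card_antidiag_le n l).trans
        (Nat.pow_le_pow_left (Finset.mem_range.mp hl) _))
  refine TP.mono h ?_
  rw [← Finset.sum_mul, ← Finset.mul_sum]
  gcongr
  rw [Nat.geomSum_eq le_rfl]
  simp

theorem coef_Op (s : Fin d → ℕ) (f : TT d → ℂ) (k : ZZ d) :
    coef (Op s (aS s) f) k = aS s k * coef f k := by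
  rw [Op, coef_tp]
  split_ifs with h
  · rfl
  · have : aS s k = 0 := by
      by_contra hc
      exact h (aS_mem_box hc)
    simp [this]

theorem coef_ps (f : TT d → ℂ) (k : ZZ d) : ∀ᶠ N in atTop, coef (ps N f) k = coef f k := by
  obtain ⟨l, hl⟩ := exists_Delta k
  filter_upwards [eventually_gt_atTop l] with N hN
  have e1 : ps N f = fun x => ∑ s ∈ Lo d N, Op s (aS s) f x := by
    funext x
    rw [sum_Lo]; rfl
  rw [e1, coef_sum _ fun i _ => cint (continuous_Op _ _ _)]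
  simp only [coef_Op]
  rw [← Finset.sum_mul, ← Complex.ofReal_sum, sum_aS_Lo hl hN]
  simp

theorem tail_gen {p : ℝ} (hp : 1 ≤ p) {f : TT d → ℂ} (hf : Integrable f (haar d))
    {u : ℕ → TT d → ℂ} (hu : ∀ l, Continuous (u l))
    (hc : ∀ k, ∀ᶠ N in atTop, coef (fun x => ∑ l ∈ range N, u l x) k = coef f k) {τ : ℕ → ℝ}
    (hτ : Summable τ) (h : ∀ l, Np p (u l) ≤ τ l) (L : ℕ) {t : TT d → ℂ}
    (ht : Continuous t) :
    eLpNorm (fun x => f x - t x) (ENNReal.ofReal p) (haar d) ≤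
      ENNReal.ofReal (Np p (fun x => ∑ l ∈ range L, u l x - t x) + ∑' l, τ (l + L)) := by
  have hp0 : 0 < p := by linarith
  have hP : 1 ≤ ENNReal.ofReal p := by simpa using hp
  have : Fact (1 ≤ ENNReal.ofReal p) := ⟨hP⟩
  have hps : ∀ N, Continuous fun x => ∑ l ∈ range N, u l x := fun N => by fun_prop
  let g : ℕ → Lp ℂ (ENNReal.ofReal p) (haar d) := fun l => (cmem (hu l) _).toLp
  have hg : ∀ l, ‖g l‖ ≤ τ l := fun l => by
    rw [Lp.norm_toLp, eLpNorm_eq_Np hp0 (hu l), ENNReal.toReal_ofReal (Np_nonneg _ _)]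
    exact h l
  have hτ0 : ∀ l, 0 ≤ τ l := fun l => (norm_nonneg _).trans (hg l)
  have hgs : Summable g := Summable.of_norm_bounded hτ hg
  have hS : ∀ N, (∑ l ∈ range N, g l : Lp ℂ _ _) =ᵐ[haar d] fun x => ∑ l ∈ range N, u l x := by
    intro N
    induction N with
    | zero =>
      filter_upwards [Lp.coeFn_zero ℂ (ENNReal.ofReal p) (haar d)] with x hx
      simp
    | succ N ih =>
      rw [Finset.sum_range_succ]
      filter_upwards [Lp.coeFn_add (∑ l ∈ range N, g l) (g N), ih,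
        (cmem (hu N) (ENNReal.ofReal p)).coeFn_toLp] with x h1 h2 h3
      rw [h1, Pi.add_apply, h2, h3, Finset.sum_range_succ]
  set G := ∑' l, g l with hG
  have hGS : ∀ N, eLpNorm (fun x => G x - ∑ l ∈ range N, u l x) (ENNReal.ofReal p) (haar d) ≤
      ENNReal.ofReal (∑' l, τ (l + N)) := by
    intro N
    have e1 : G - ∑ l ∈ range N, g l = ∑' l, g (l + N) := by
      rw [hG, ← hgs.sum_add_tsum_nat_add N]; simp
    have e2 : ‖G - ∑ l ∈ range N, g l‖ ≤ ∑' l, τ (l + N) := by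
      rw [e1]
      exact tsum_of_norm_bounded ((summable_nat_add_iff N).mpr hτ).hasSum fun l => hg _
    have e3 : (fun x => G x - ∑ l ∈ range N, u l x) =ᵐ[haar d]
        (G - ∑ l ∈ range N, g l : Lp ℂ _ _) := by
      filter_upwards [Lp.coeFn_sub G (∑ l ∈ range N, g l), hS N] with x h1 h2
      rw [h1, Pi.sub_apply, h2]
    rw [eLpNorm_congr_ae e3, ← Lp.enorm_def, ← ofReal_norm]
    exact ENNReal.ofReal_le_ofReal e2
  have hGi : Integrable G (haar d) := (Lp.memLp G).integrable hP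
  have hGf : (fun x => G x - f x) =ᵐ[haar d] 0 := by
    refine uniq (hGi.sub hf) fun k => ?_
    rw [coef_sub hGi hf, ← norm_le_zero_iff]
    refine ge_of_tendsto (tendsto_sum_nat_add τ) ?_
    filter_upwards [hc k] with N hN
    have hi : Integrable (fun x => G x - ∑ l ∈ range N, u l x) (haar d) := hGi.sub (cint (hps N))
    rw [← hN, ← coef_sub hGi (cint (hps N))]
    refine (norm_coef_le _ _).trans ?_
    have h1 := (eLpNorm_le_eLpNorm_of_exponent_le hP hi.aestronglyMeasurable).trans (hGS N)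
    rw [eLpNorm_one_eq_lintegral_enorm, ← ofReal_integral_norm_eq_lintegral_enorm hi] at h1
    exact (ENNReal.ofReal_le_ofReal_iff (tsum_nonneg fun l => hτ0 _)).mp h1
  have e4 : (fun x => f x - t x) =ᵐ[haar d]
      (fun x => ∑ l ∈ range L, u l x - t x) + fun x => G x - ∑ l ∈ range L, u l x := by
    filter_upwards [hGf] with x hx
    simp only [Pi.zero_apply, sub_eq_zero] at hx
    simp [hx]
  rw [eLpNorm_congr_ae e4, ENNReal.ofReal_add (Np_nonneg _ _) (tsum_nonneg fun l => hτ0 _),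
    ← eLpNorm_eq_Np hp0 (by fun_prop)]
  refine (eLpNorm_add_le (Continuous.aestronglyMeasurable (by fun_prop))
    (hGi.sub (cint (hps L))).aestronglyMeasurable hP).trans ?_
  exact add_le_add le_rfl (hGS L)

theorem nik_block {q p : ℝ} (hq : 1 ≤ q) (hqp : q ≤ p) : ∃ C : ℝ, 0 < C ∧
    ∀ (s : Fin d → ℕ) (f : TT d → ℂ), Np p (Op s (aS s) f) ≤
      C * (2 ^ ((q⁻¹ - p⁻¹) * wt s) * Np q (Op s (aS s) f)) := by
  rcases hqp.eq_or_lt with rfl | hqp
  · exact ⟨1, one_pos, fun s f => by simp⟩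
  obtain ⟨C, hC, h⟩ := tlemma_Np (d := d) 1 hq hqp
  refine ⟨C * 3 ^ d, by positivity, fun s f => ?_⟩
  have h0 := Np_nonneg q (Op s (aS s) f)
  have h1 := h _ {s} id (mult_id _) (fun s => Op s (aS s) f)
    (fun s => 3 ^ d * Np q (Op s (aS s) f)) (fun i => continuous_Op _ _ _)
    (fun i => by have := Np_nonneg q (Op i (aS i) f); positivity) fun i _ => maj_block i hq _
  simp only [Finset.sum_singleton, id] at h1
  rw [Real.rpow_rpow_inv (by positivity) (by linarith)] at h1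
  exact h1.trans (le_of_eq (by ring))

theorem sigma_tail' {q p K : ℝ} (hq : 1 ≤ q) (hqp : q ≤ p) (hK : 0 < K) : ∃ C : ℝ, 0 < C ∧
    ∀ (ω : ℕ → ℝ) (f : TT d → ℂ),
    f ∈ Bom d q K ω → Summable (fun l : ℕ => (2 : ℝ) ^ ((1 - p⁻¹) * l) * ω l) →
    ∀ (m L : ℕ) (t : TT d → ℂ), 1 ≤ L → TP m t → sigma m p f ≤ ENNReal.ofReal
      (Np p (fun x => ps L f x - t x) +
        C * ∑' l : ℕ, (2 : ℝ) ^ ((1 - p⁻¹) * (l + L : ℕ)) * ω (l + L)) := by
  obtain ⟨C, hC, h⟩ := nik_block (d := d) hq hqp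
  have hp : 1 ≤ p := hq.trans hqp
  refine ⟨C * K, by positivity, fun ω f hf hs m L t hL ht => (sigma_le ht).trans ?_⟩
  rw [← tsum_mul_left]
  have h1 := tail_gen hp hf.1 (fun l => continuous_sl l f) (coef_ps f)
    (τ := fun l => if l = 0 then Np p (sl 0 f) else C * K * ((2 : ℝ) ^ ((1 - p⁻¹) * l) * ω l))
    ((summable_nat_add_iff 1).mp (by
      simpa using ((summable_nat_add_iff 1).mpr hs).mul_left (C * K)))
    (fun l => by
      split_ifs with hl
      · rw [hl]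
      · refine (Np_sum_le hp _ fun s => continuous_Op _ _ _).trans ?_
        refine (Finset.sum_le_sum (g := fun s => C * 2 ^ ((q⁻¹ - p⁻¹) * l) *
          Np q (Op s (aS s) f)) fun s hs => ?_).trans ?_
        · refine (h s f).trans (le_of_eq ?_)
          rw [mem_AT.mp hs, mul_assoc]
        · rw [← Finset.mul_sum]
          refine (mul_le_mul_of_nonneg_left (hf.2 l (by omega)) (by positivity)).trans
            (le_of_eq ?_)
          have : (2 : ℝ) ^ ((1 - p⁻¹) * l) = 2 ^ ((q⁻¹ - p⁻¹) * l) * 2 ^ ((1 - q⁻¹) * l) := by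
            rw [← Real.rpow_add (by norm_num)]; congr 1; ring
          rw [this]; ring) L ht.continuous
  have e : ∀ l : ℕ, ¬ l + L = 0 := fun l => by omega
  simp only [e, if_false] at h1
  exact h1

theorem ps_sub {n L : ℕ} (h : n ≤ L) (f : TT d → ℂ) (x : TT d) :
    ps L f x - ps n f x = ∑ l ∈ Ico n L, sl l f x :=
  (Finset.sum_Ico_eq_sub _ h).symm

theorem tp_sum {ι : Type*} (S : Finset ι) (K : ι → Finset (ZZ d)) (c : ι → ZZ d → ℂ) :
    ∃ (K' : Finset (ZZ d)) (c' : ZZ d → ℂ), (∀ x, ∑ i ∈ S, tp (K i) (c i) x = tp K' c' x) ∧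
      ∑ k ∈ K', ‖c' k‖ ≤ ∑ i ∈ S, ∑ k ∈ K i, ‖c i k‖ := by
  classical
  refine ⟨S.biUnion K, fun k => ∑ i ∈ S, if k ∈ K i then c i k else 0, fun x => ?_, ?_⟩
  · rw [Finset.sum_congr rfl fun i hi => by rw [tp_subset (Finset.subset_biUnion_of_mem K hi)]]
    simp only [tp, Finset.sum_mul]
    exact Finset.sum_comm
  · refine (Finset.sum_le_sum fun k _ => norm_sum_le _ _).trans ?_
    rw [Finset.sum_comm]
    refine Finset.sum_le_sum fun i hi => le_of_eq ?_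
    rw [← Finset.sum_subset (Finset.subset_biUnion_of_mem K hi) fun k _ hk => by simp [hk]]
    exact Finset.sum_congr rfl fun k hk => by simp [hk]

theorem anorm_block (s : Fin d → ℕ) (f : TT d → ℂ) :
    ∑ k ∈ box s, ‖(aS s k : ℂ) * coef f k‖ ≤ √(8 ^ d * 2 ^ wt s) * Np 2 (Op s (aS s) f) := by
  rw [Op, Np_two_tp, ← Real.sqrt_mul (by positivity)]
  refine Real.le_sqrt_of_sq_le ?_
  exact (sq_sum_le_card_mul_sum_sq).trans (mul_le_mul_of_nonneg_right (card_box s)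
    (by positivity))

theorem upper_large' {n : ℕ} {p K : ℝ} (hp : 2 ≤ p) (hK : 0 < K) : ∃ C : ℝ, 0 < C ∧
    ∀ (ω : ℕ → ℝ) (f : TT (n + 1) → ℂ), (∀ l, 0 < ω l) → f ∈ Bom (n + 1) 2 K ω →
    Summable (fun l : ℕ => (2 : ℝ) ^ ((1 - p⁻¹) * l) * ω l) →
    ∀ (m m' N L : ℕ), 1 ≤ N → N ≤ L → 0 < m' → 8 ^ (n + 1) * 2 ^ N * N ^ n + m' ≤ m →
    sigma m p f ≤ ENNReal.ofReal (C * ((∑ l ∈ Ico N L, 2 ^ l * ω l) / √m' +
        ∑' l : ℕ, (2 : ℝ) ^ ((1 - p⁻¹) * (l + L : ℕ)) * ω (l + L))) := by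
  obtain ⟨C1, hC1, h1⟩ := sigma_tail' (d := n + 1) (q := 2) (by norm_num) hp hK
  obtain ⟨C2, hC2, h2⟩ := maurey (d := n + 1) (p := p) (by linarith)
  set C3 : ℝ := √(8 ^ (n + 1)) * K with hC3'
  have hC3 : 0 < C3 := by positivity
  refine ⟨C1 + C2 * C3, by positivity, fun ω f hω hf hs m m' N L hN1 hNL hm' hm => ?_⟩
  obtain ⟨K', c', e0, e0'⟩ := tp_sum ((Ico N L).sigma (AT (n + 1))) (fun i => box i.2)
    fun i k => (aS i.2 k : ℂ) * coef f k
  obtain ⟨t, ht, hN⟩ := h2 K' c' m' hm'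
  refine (h1 ω f hf hs m L _ (hN1.trans hNL) (((TP_ps n N f).add ht).mono hm)).trans
    (ENNReal.ofReal_le_ofReal ?_)
  have e1 : ∀ x, ps L f x - (ps N f x + t x) = tp K' c' x - t x := by
    intro x
    rw [← sub_sub, ps_sub hNL, ← e0, Finset.sum_sigma]
    rfl
  simp only [e1]
  have e2 : ∑ k ∈ K', ‖c' k‖ ≤ C3 * ∑ l ∈ Ico N L, 2 ^ l * ω l := by
    refine e0'.trans ?_
    rw [Finset.sum_sigma, Finset.mul_sum]
    refine Finset.sum_le_sum fun l hl => ?_
    refine (Finset.sum_le_sum (g := fun s => √(8 ^ (n + 1) * 2 ^ l) * Np 2 (Op s (aS s) f))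
      fun s hs => ?_).trans ?_
    · have := anorm_block s f
      rwa [mem_AT.mp hs] at this
    · rw [← Finset.mul_sum]
      refine (mul_le_mul_of_nonneg_left (hf.2 l (hN1.trans (Finset.mem_Ico.mp hl).1))
        (by positivity)).trans (le_of_eq ?_)
      have e3 : (2 : ℝ) ^ ((1 - 2⁻¹ : ℝ) * l) = √(2 ^ l) := by
        rw [Real.sqrt_eq_rpow, ← Real.rpow_natCast, ← Real.rpow_mul (by norm_num)]
        congr 1; ring
      have e4 : √(2 ^ l) * √(2 ^ l) = (2 : ℝ) ^ l := Real.mul_self_sqrt (by positivity)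
      rw [e3, Real.sqrt_mul (by positivity), hC3']
      conv_rhs => rw [← e4]
      ring
  have n1 : 0 ≤ ∑' l : ℕ, (2 : ℝ) ^ ((1 - p⁻¹) * (l + L : ℕ)) * ω (l + L) :=
    tsum_nonneg fun l => by have := hω (l + L); positivity
  have n2 : 0 ≤ (∑ l ∈ Ico N L, 2 ^ l * ω l) / √m' :=
    div_nonneg (Finset.sum_nonneg fun l _ => by have := hω l; positivity) (by positivity)
  have e3 : Np p (fun x => tp K' c' x - t x) ≤
      C2 * C3 * ((∑ l ∈ Ico N L, 2 ^ l * ω l) / √m') := by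
    refine hN.trans ?_
    rw [mul_div_assoc, mul_assoc, ← mul_div_assoc C3]
    gcongr
  nlinarith [mul_nonneg hC1.le n2, mul_nonneg (mul_pos hC2 hC3).le n1]

theorem upper_small' {n : ℕ} {p C2 : ℝ} (hp : 1 < p) (hC2 : 0 < C2) : ∃ C : ℝ, 0 < C ∧
    ∀ (ω : ℕ → ℝ) (f : TT (n + 1) → ℂ), (∀ l, 0 < ω l) → f ∈ Bom (n + 1) ((1 + p) / 2) C2 ω →
    Summable (fun l : ℕ => (2 : ℝ) ^ ((1 - p⁻¹) * l) * ω l) →
    ∀ (m N L : ℕ) (v : ℕ → ℝ), 1 ≤ N → N ≤ L → (∀ l, 0 < v l) →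
    (8 ^ (n + 1) * 2 ^ N * N ^ n + 8 ^ (n + 1) * ∑ l ∈ Ico N L, 2 ^ l * v l : ℝ) ≤ m →
    sigma m p f ≤ ENNReal.ofReal (C *
      ((∑ l ∈ Ico N L, ((2 : ℝ) ^ ((1 - p⁻¹) * l) * ω l * v l ^ (-(1 - p⁻¹))) ^ p) ^ p⁻¹ +
        ∑' l : ℕ, (2 : ℝ) ^ ((1 - p⁻¹) * (l + L : ℕ)) * ω (l + L))) := by
  classical
  have hp0 : 0 < p := by linarith
  set q := (1 + p) / 2 with hq
  have hq1 : 1 < q := by linarith
  have hqp : q < p := by linarith
  obtain ⟨C1, hC1, h1⟩ := sigma_tail' (d := n + 1) hq1.le hqp.le hC2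
  obtain ⟨C3, hC3, h3⟩ := tlemma_Np (d := n + 1) 1 hq1.le hqp
  refine ⟨C1 + C3 * (3 ^ (n + 1) * C2), by positivity,
    fun ω f hω hf hs m N L v hN1 hNL hv hm => ?_⟩
  set B : ℕ → ℝ := fun l => C2 * (2 : ℝ) ^ ((1 - q⁻¹) * l) * ω l with hB
  have hB0 : ∀ l, 0 < B l := fun l => by have := hω l; positivity
  set u : (Fin (n + 1) → ℕ) → TT (n + 1) → ℂ := fun s => Op s (aS s) f with hu
  set b : (Fin (n + 1) → ℕ) → ℝ := fun s => Np q (u s) with hb
  have hb0 : ∀ s, 0 ≤ b s := fun s => Np_nonneg _ _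
  have hbB : ∀ l ∈ Ico N L, ∑ s ∈ AT (n + 1) l, b s ≤ B l := fun l hl =>
    hf.2 l (hN1.trans (Finset.mem_Ico.mp hl).1)
  set Big : ℕ → Finset (Fin (n + 1) → ℕ) :=
    fun l => (AT (n + 1) l).filter fun s => B l < v l * b s with hBig
  set Sm : ℕ → Finset (Fin (n + 1) → ℕ) :=
    fun l => (AT (n + 1) l).filter fun s => ¬ B l < v l * b s with hSm
  have hcard : ∀ l ∈ Ico N L, ((Big l).card : ℝ) ≤ v l := by
    intro l hl
    have a1 : ∑ s ∈ Big l, B l ≤ ∑ s ∈ Big l, v l * b s :=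
      Finset.sum_le_sum fun s hs => (Finset.mem_filter.mp hs).2.le
    rw [Finset.sum_const, nsmul_eq_mul, ← Finset.mul_sum] at a1
    have a2 : ∑ s ∈ Big l, b s ≤ B l :=
      (Finset.sum_le_sum_of_subset_of_nonneg (Finset.filter_subset _ _)
        fun s _ _ => hb0 s).trans (hbB l hl)
    exact le_of_mul_le_mul_right (a1.trans (mul_le_mul_of_nonneg_left a2 (hv l).le)) (hB0 l)
  have hT : TP (∑ l ∈ Ico N L, ∑ s ∈ Big l, (box s).card)
      fun x => ∑ l ∈ Ico N L, ∑ s ∈ Big l, u s x :=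
    TP.sum _ fun l _ => TP.sum _ fun s _ => ⟨_, _, le_rfl, rfl⟩
  have hm2 : 8 ^ (n + 1) * 2 ^ N * N ^ n + ∑ l ∈ Ico N L, ∑ s ∈ Big l, (box s).card ≤ m := by
    have : ((8 ^ (n + 1) * 2 ^ N * N ^ n + ∑ l ∈ Ico N L, ∑ s ∈ Big l, (box s).card : ℕ) : ℝ)
        ≤ m := by
      push_cast
      refine le_trans (add_le_add le_rfl ?_) hm
      rw [Finset.mul_sum]
      refine Finset.sum_le_sum fun l hl => ?_
      refine (Finset.sum_le_card_nsmul _ _ (8 ^ (n + 1) * 2 ^ l) fun s hs => ?_).trans ?_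
      · refine (card_box s).trans (le_of_eq ?_)
        rw [mem_AT.mp (Finset.mem_filter.mp hs).1]
      · rw [nsmul_eq_mul, mul_comm, mul_assoc]
        gcongr
        exact hcard l hl
    exact_mod_cast this
  refine (h1 ω f hf hs m L _ (hN1.trans hNL) (((TP_ps n N f).add hT).mono hm2)).trans
    (ENNReal.ofReal_le_ofReal ?_)
  have e1 : ∀ x, ps L f x - (ps N f x + ∑ l ∈ Ico N L, ∑ s ∈ Big l, u s x) =
      ∑ i ∈ (Ico N L).sigma Sm, u i.2 x := by
    intro x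
    rw [← sub_sub, ps_sub hNL, Finset.sum_sigma, ← Finset.sum_sub_distrib]
    refine Finset.sum_congr rfl fun l _ => ?_
    rw [sl, ← Finset.sum_filter_add_sum_filter_not (AT (n + 1) l)
      fun s => B l < v l * b s]
    simp [hBig, hSm, hu]
  simp only [e1]
  have hM : Mult 1 ((Ico N L).sigma Sm) fun i => i.2 := by
    intro s
    rw [Finset.card_le_one]
    rintro ⟨i1, i2⟩ hi ⟨j1, j2⟩ hj
    simp only [mem_sigma, hSm, mem_filter, mem_AT] at hi hj
    rw [← hi.1.2.1, ← hj.1.2.1, hi.2, hj.2]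
  have hN := h3 _ _ _ hM (fun i => u i.2) (fun i => 3 ^ (n + 1) * b i.2)
    (fun i => continuous_Op _ _ _) (fun i => by have := hb0 i.2; positivity)
    fun i _ => maj_block i.2 hq1.le _
  set X := ∑ l ∈ Ico N L, ((2 : ℝ) ^ ((1 - p⁻¹) * l) * ω l * v l ^ (-(1 - p⁻¹))) ^ p with hX
  have hX0 : 0 ≤ X := Finset.sum_nonneg fun l _ => by have := hω l; have := hv l; positivity
  have e2 : ∑ i ∈ (Ico N L).sigma Sm,
      (2 ^ ((q⁻¹ - p⁻¹) * wt i.2) * (3 ^ (n + 1) * b i.2)) ^ p ≤ (3 ^ (n + 1) * C2) ^ p * X := by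
    rw [Finset.sum_sigma, hX, Finset.mul_sum]
    refine Finset.sum_le_sum fun l hl => ?_
    have hvl := hv l
    have hωl := hω l
    have hBl := hB0 l
    have s1 : ∀ s ∈ Sm l, (2 ^ ((q⁻¹ - p⁻¹) * wt s) * (3 ^ (n + 1) * b s)) ^ p ≤
        (2 ^ ((q⁻¹ - p⁻¹) * l) * 3 ^ (n + 1)) ^ p * (B l / v l) ^ (p - 1) * b s := by
      intro s hs
      have hbs := hb0 s
      simp only [hSm, mem_AT, mem_filter, not_lt] at hs
      have t1 : b s ≤ B l / v l := by rw [le_div_iff₀ hvl, mul_comm]; exact hs.2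
      have t2 : b s ^ p = b s ^ (p - 1) * b s := by
        rw [← Real.rpow_add_one' hbs (by linarith)]; simp
      have : 0 ≤ p - 1 := by linarith
      rw [← mul_assoc, Real.mul_rpow (by positivity) hbs, t2, ← mul_assoc, hs.1]
      gcongr
    refine (Finset.sum_le_sum s1).trans ?_
    rw [← Finset.mul_sum]
    have s2 : ∑ s ∈ Sm l, b s ≤ B l :=
      (Finset.sum_le_sum_of_subset_of_nonneg (Finset.filter_subset _ _)
        fun s _ _ => hb0 s).trans (hbB l hl)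
    refine (mul_le_mul_of_nonneg_left s2 (by positivity)).trans (le_of_eq ?_)
    have t4 : (B l / v l) ^ (p - 1) * B l = (B l * v l ^ (-(1 - p⁻¹))) ^ p := by
      rw [Real.mul_rpow hBl.le (by positivity), ← Real.rpow_mul hvl.le,
        Real.div_rpow hBl.le hvl.le]
      have : -(1 - p⁻¹) * p = -(p - 1) := by field_simp
      rw [this, Real.rpow_neg hvl.le, Real.rpow_sub_one hBl.ne']
      field_simp
    rw [mul_assoc, t4, ← Real.mul_rpow (by positivity) (by positivity),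
      ← Real.mul_rpow (by positivity) (by positivity)]
    congr 1
    have : (2 : ℝ) ^ ((1 - p⁻¹) * l) = 2 ^ ((q⁻¹ - p⁻¹) * l) * 2 ^ ((1 - q⁻¹) * l) := by
      rw [← Real.rpow_add (by norm_num)]; congr 1; ring
    rw [this, hB]; ring
  have e3 : Np p (fun x => ∑ i ∈ (Ico N L).sigma Sm, u i.2 x) ≤
      C3 * (3 ^ (n + 1) * C2) * X ^ p⁻¹ := by
    refine hN.trans ?_
    rw [mul_assoc]
    refine mul_le_mul_of_nonneg_left ?_ hC3.le
    refine (Real.rpow_le_rpow (Finset.sum_nonneg fun i _ => by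
      have := hb0 i.2; positivity) e2 (by positivity)).trans (le_of_eq ?_)
    rw [Real.mul_rpow (by positivity) hX0, Real.rpow_rpow_inv (by positivity) hp0.ne']
  have n1 : 0 ≤ ∑' l : ℕ, (2 : ℝ) ^ ((1 - p⁻¹) * (l + L : ℕ)) * ω (l + L) :=
    tsum_nonneg fun l => by have := hω (l + L); positivity
  have n2 : 0 ≤ X ^ p⁻¹ := by positivity
  have n3 : 0 < C3 * (3 ^ (n + 1) * C2) := by positivity
  nlinarith [mul_nonneg hC1.le n2, mul_nonneg n3.le n1]

end Pool.Agent.P.MP_33127d_an
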